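import Mathlib

/-!
# The full group C*-algebra

For a group `G` we construct the full group C*-algebra as the completion of the group algebra for
the largest C*-seminorm.
-/

open Filter Topology Set UniformSpace

noncomputable section

namespace Pool.Agent.helper27.Stab

universe u v

section groupAlgebra

variable (G : Type u) [Group G]

/-- The complex group algebra (a synonym, to carry its own norm and star). -/
def GA : Type u := MonoidAlgebra ℂ G

instance : Ring (GA G) := inferInstanceAs (Ring (MonoidAlgebra ℂ G))
instance : Algebra ℂ (GA G) := inferInstanceAs (Algebra ℂ (MonoidAlgebra ℂ G))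

variable {G}

/-- `c · g` in the group algebra. -/
def sg (g : G) (c : ℂ) : GA G := MonoidAlgebra.single g c

lemma sg_mul (g h : G) (a b : ℂ) : sg g a * sg h b = sg (g * h) (a * b) :=
  MonoidAlgebra.single_mul_single ..

lemma sg_one : sg (1 : G) 1 = 1 := rfl

lemma smul_sg (g : G) (a c : ℂ) : c • sg g a = sg g (c * a) :=
  MonoidAlgebra.smul_single ..

lemma GA.induction {P : GA G → Prop} (x : GA G) (h0 : P 0) (hadd : ∀ x y, P x → P y → P (x + y))
    (hs : ∀ g c, P (sg g c)) : P x :=
  MonoidAlgebra.induction_linear (motive := P) x h0 hadd hs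

/-- The involution of the group algebra. -/
def starAdd : GA G →+ GA G where
  toFun f := MonoidAlgebra.ofCoeff
    (((f : MonoidAlgebra ℂ G).coeff.mapRange star (star_zero ℂ)).equivMapDomain (Equiv.inv G))
  map_zero' := by
    change MonoidAlgebra.ofCoeff _ = MonoidAlgebra.ofCoeff 0
    congr 1
    ext g
    simp [Finsupp.equivMapDomain_apply]
    rfl
  map_add' x y := by
    change MonoidAlgebra.ofCoeff _ = MonoidAlgebra.ofCoeff _
    congr 1
    ext g
    exact star_add _ _

lemma starAdd_sg (g : G) (c : ℂ) : starAdd (sg g c) = sg g⁻¹ (star c) := by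
  change MonoidAlgebra.ofCoeff _ = MonoidAlgebra.ofCoeff _
  congr 1
  change ((Finsupp.single g c).mapRange star (star_zero ℂ)).equivMapDomain (Equiv.inv G) = _
  rw [Finsupp.mapRange_single, Finsupp.equivMapDomain_single]
  rfl

instance : StarRing (GA G) where
  star := starAdd
  star_involutive x := by
    induction x using GA.induction with
    | h0 => rw [map_zero, map_zero]
    | hadd x y hx hy =>
      rw [map_add, map_add]
      exact congrArg₂ _ hx hy
    | hs g c => rw [starAdd_sg, starAdd_sg, star_star, inv_inv]
  star_mul x y := by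
    change starAdd (x * y) = starAdd y * starAdd x
    induction x using GA.induction with
    | h0 => rw [zero_mul, map_zero, mul_zero]
    | hadd x x' hx hx' => rw [add_mul, map_add, map_add, mul_add, hx, hx']
    | hs g c =>
      induction y using GA.induction with
      | h0 => rw [mul_zero, map_zero, zero_mul]
      | hadd x x' hx hx' => rw [mul_add, map_add, map_add, add_mul, hx, hx']
      | hs h d =>
        rw [sg_mul, starAdd_sg, starAdd_sg, starAdd_sg, sg_mul, star_mul, mul_inv_rev]
  star_add x y := map_add _ _ _

lemma star_sg (g : G) (c : ℂ) : star (sg g c) = sg g⁻¹ (star c) := starAdd_sg g c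

instance : StarModule ℂ (GA G) where
  star_smul c x := by
    induction x using GA.induction with
    | h0 => rw [smul_zero, star_zero, smul_zero]
    | hadd x x' hx hx' => rw [smul_add, star_add, star_add, smul_add, hx, hx']
    | hs g d => rw [smul_sg, star_sg, star_sg, smul_sg, star_mul, mul_comm]

/-- C*-seminorms on the group algebra. -/
structure IsCSemi (p : GA G → ℝ) : Prop where
  add : ∀ x y, p (x + y) ≤ p x + p y
  smul : ∀ (c : ℂ) x, p (c • x) = ‖c‖ * p x
  mul : ∀ x y, p (x * y) ≤ p x * p y
  star_mul : ∀ x, p (star x * x) = p x ^ 2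
  of : ∀ g, p (sg g 1) ≤ 1

namespace IsCSemi

variable {p : GA G → ℝ} (hp : IsCSemi p)
include hp

lemma zero : p 0 = 0 := by
  have := hp.smul 0 0
  simpa using this

lemma neg (x : GA G) : p (-x) = p x := by
  have := hp.smul (-1) x
  simpa using this

lemma nonneg (x : GA G) : 0 ≤ p x := by
  have h1 := hp.add x (-x)
  rw [add_neg_cancel, hp.zero, hp.neg] at h1
  linarith

lemma le_star (x : GA G) : p x ≤ p (star x) := by
  have h1 := hp.mul (star x) x
  rw [hp.star_mul] at h1
  rcases (hp.nonneg x).eq_or_lt with h | h
  · rw [← h]; exact hp.nonneg _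
  · rw [sq] at h1
    exact le_of_mul_le_mul_right h1 h

lemma star_eq (x : GA G) : p (star x) = p x :=
  le_antisymm (by simpa using hp.le_star (star x)) (hp.le_star x)

end IsCSemi

lemma exists_bound (x : GA G) : ∃ C : ℝ, ∀ p : GA G → ℝ, IsCSemi p → p x ≤ C := by
  induction x using GA.induction with
  | h0 => exact ⟨0, fun p hp => hp.zero.le⟩
  | hadd x y hx hy =>
    obtain ⟨C, hC⟩ := hx
    obtain ⟨D, hD⟩ := hy
    exact ⟨C + D, fun p hp => (hp.add x y).trans (add_le_add (hC p hp) (hD p hp))⟩
  | hs g c =>
    refine ⟨‖c‖, fun p hp => ?_⟩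
    have h1 : sg g c = c • sg g 1 := by rw [smul_sg, mul_one]
    rw [h1, hp.smul]
    exact mul_le_of_le_one_right (norm_nonneg _) (hp.of g)

/-- The largest C*-seminorm. -/
def maxSemi (x : GA G) : ℝ := sSup {r | ∃ p : GA G → ℝ, IsCSemi p ∧ r = p x}

lemma le_maxSemi {p : GA G → ℝ} (hp : IsCSemi p) (x : GA G) : p x ≤ maxSemi x := by
  obtain ⟨C, hC⟩ := exists_bound x
  refine le_csSup ⟨C, ?_⟩ ⟨p, hp, rfl⟩
  rintro _ ⟨q, hq, rfl⟩
  exact hC q hq

lemma isCSemi_zero : IsCSemi (fun _ : GA G => (0 : ℝ)) where
  add := by simp
  smul := by simp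
  mul := by simp
  star_mul := by simp
  of := by simp

lemma maxSemi_le {x : GA G} {C : ℝ} (h : ∀ p : GA G → ℝ, IsCSemi p → p x ≤ C) : maxSemi x ≤ C := by
  refine csSup_le ⟨_, _, isCSemi_zero, rfl⟩ ?_
  rintro _ ⟨q, hq, rfl⟩
  exact h q hq

lemma maxSemi_nonneg (x : GA G) : 0 ≤ maxSemi x := le_maxSemi isCSemi_zero x

lemma maxSemi_smul_le (c : ℂ) (x : GA G) : maxSemi (c • x) ≤ ‖c‖ * maxSemi x :=
  maxSemi_le fun p hp => by
    rw [hp.smul]
    exact mul_le_mul_of_nonneg_left (le_maxSemi hp x) (norm_nonneg _)

lemma isCSemi_maxSemi : IsCSemi (maxSemi : GA G → ℝ) where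
  add x y := maxSemi_le fun p hp => (hp.add x y).trans
    (add_le_add (le_maxSemi hp x) (le_maxSemi hp y))
  smul c x := by
    refine le_antisymm (maxSemi_smul_le c x) ?_
    rcases eq_or_ne c 0 with rfl | hc
    · simpa using maxSemi_nonneg _
    · have h1 := maxSemi_smul_le c⁻¹ (c • x)
      rw [smul_smul, inv_mul_cancel₀ hc, one_smul, norm_inv] at h1
      have h2 : 0 < ‖c‖ := norm_pos_iff.2 hc
      calc ‖c‖ * maxSemi x ≤ ‖c‖ * (‖c‖⁻¹ * maxSemi (c • x)) := by gcongr
        _ = maxSemi (c • x) := by rw [← mul_assoc, mul_inv_cancel₀ h2.ne', one_mul]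
  mul x y := maxSemi_le fun p hp => (hp.mul x y).trans
    (mul_le_mul (le_maxSemi hp x) (le_maxSemi hp y) (hp.nonneg _) (maxSemi_nonneg _))
  star_mul x := by
    apply le_antisymm
    · exact maxSemi_le fun p hp => by
        rw [hp.star_mul]
        exact pow_le_pow_left₀ (hp.nonneg _) (le_maxSemi hp x) 2
    · have h1 : maxSemi x ≤ Real.sqrt (maxSemi (star x * x)) :=
        maxSemi_le fun p hp => by
          apply Real.le_sqrt_of_sq_le
          rw [← hp.star_mul]
          exact le_maxSemi hp _
      calc maxSemi x ^ 2 ≤ Real.sqrt (maxSemi (star x * x)) ^ 2 :=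
            pow_le_pow_left₀ (maxSemi_nonneg _) h1 2
        _ = _ := Real.sq_sqrt (maxSemi_nonneg _)
  of g := maxSemi_le fun p hp => hp.of g

/-- The largest C*-seminorm as a group seminorm. -/
def maxGS : AddGroupSeminorm (GA G) where
  toFun := maxSemi
  map_zero' := isCSemi_maxSemi.zero
  add_le' := isCSemi_maxSemi.add
  neg' := isCSemi_maxSemi.neg

instance : SeminormedRing (GA G) where
  __ := maxGS.toSeminormedAddCommGroup
  __ := (inferInstance : Ring (GA G))
  norm_mul_le := isCSemi_maxSemi.mul

lemma norm_GA (x : GA G) : ‖x‖ = maxSemi x := rfl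

instance : NormedAlgebra ℂ (GA G) where
  norm_smul_le c x := (isCSemi_maxSemi.smul c x).le

lemma norm_star_GA (x : GA G) : ‖star x‖ = ‖x‖ := isCSemi_maxSemi.star_eq x

lemma isometry_star_GA : Isometry (star : GA G → GA G) := by
  apply Isometry.of_dist_eq
  intro x y
  rw [dist_eq_norm, dist_eq_norm, ← star_sub, norm_star_GA]

end groupAlgebra

section completion

variable (G : Type u) [Group G]

/-- The full group C*-algebra of `G`. -/
def FullC : Type u := Completion (GA G)

instance : NormedRing (FullC G) := inferInstanceAs (NormedRing (Completion (GA G)))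

instance : CompleteSpace (FullC G) := inferInstanceAs (CompleteSpace (Completion (GA G)))

instance : Algebra ℂ (FullC G) := inferInstanceAs (Algebra ℂ (Completion (GA G)))

instance : NormedSpace ℂ (FullC G) := inferInstanceAs (NormedSpace ℂ (Completion (GA G)))

variable {G}

/-- The canonical map of the group algebra. -/
def toC (x : GA G) : FullC G := (x : Completion (GA G))

lemma toC_add (x y : GA G) : toC (x + y) = toC x + toC y := Completion.coe_add x y
lemma toC_mul (x y : GA G) : toC (x * y) = toC x * toC y := Completion.coe_mul x y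
lemma toC_smul (c : ℂ) (x : GA G) : toC (c • x) = c • toC x := Completion.coe_smul c x
lemma toC_one : toC (1 : GA G) = 1 := rfl
lemma toC_zero : toC (0 : GA G) = 0 := rfl
lemma norm_toC (x : GA G) : ‖toC x‖ = ‖x‖ := Completion.norm_coe x

lemma denseRange_toC : DenseRange (toC : GA G → FullC G) := Completion.denseRange_coe

lemma continuous_toC : Continuous (toC : GA G → FullC G) := Completion.continuous_coe _

instance : NormedAlgebra ℂ (FullC G) where
  norm_smul_le c x := norm_smul_le c x

instance : Star (FullC G) where
  star := Completion.map (star : GA G → GA G)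

lemma continuous_starC : Continuous (star : FullC G → FullC G) := Completion.continuous_map

lemma star_toC (x : GA G) : star (toC x) = toC (star x) :=
  Completion.map_coe isometry_star_GA.uniformContinuous x

instance : StarRing (FullC G) where
  star_involutive := by
    intro x
    refine denseRange_toC.induction_on x (isClosed_eq (continuous_starC.comp continuous_starC)
      continuous_id) fun a => ?_
    rw [star_toC, star_toC, star_star]
  star_mul := by
    intro x y
    refine denseRange_toC.induction_on₂ (p := fun x y : FullC G => star (x * y) = star y * star x)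
      ?_ (fun a b => ?_) x y
    · exact isClosed_eq (continuous_starC.comp continuous_mul)
        ((continuous_starC.comp continuous_snd).mul (continuous_starC.comp continuous_fst))
    · rw [← toC_mul, star_toC, star_toC, star_toC, ← toC_mul, star_mul]
  star_add := by
    intro x y
    refine denseRange_toC.induction_on₂ (p := fun x y : FullC G => star (x + y) = star x + star y)
      ?_ (fun a b => ?_) x y
    · exact isClosed_eq (continuous_starC.comp continuous_add)
        ((continuous_starC.comp continuous_fst).add (continuous_starC.comp continuous_snd))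
    · rw [← toC_add, star_toC, star_toC, star_toC, ← toC_add, star_add]

instance : CStarRing (FullC G) where
  norm_mul_self_le := by
    intro x
    refine denseRange_toC.induction_on x (isClosed_le (continuous_norm.mul continuous_norm)
      (continuous_norm.comp (continuous_starC.mul continuous_id))) fun a => ?_
    change ‖toC a‖ * ‖toC a‖ ≤ ‖star (toC a) * toC a‖
    rw [star_toC, ← toC_mul, norm_toC, norm_toC, norm_GA, norm_GA, isCSemi_maxSemi.star_mul, sq]

instance : CStarAlgebra (FullC G) where
  star_smul := by
    intro c x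
    refine denseRange_toC.induction_on x (isClosed_eq (continuous_starC.comp (continuous_const_smul c))
      (continuous_starC.const_smul (star c))) fun a => ?_
    rw [← toC_smul, star_toC, star_toC, ← toC_smul, star_smul]

/-- The canonical unitaries. -/
def ofG : G →* unitary (FullC G) where
  toFun g := ⟨toC (sg g 1), by
    rw [Unitary.mem_iff, star_toC, star_sg, ← toC_mul, ← toC_mul, sg_mul, sg_mul, star_one, mul_one,
      inv_mul_cancel, mul_inv_cancel, sg_one, toC_one]
    exact ⟨rfl, rfl⟩⟩
  map_one' := Subtype.ext toC_one
  map_mul' g h := Subtype.ext (by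
    change toC _ = toC _ * toC _
    rw [← toC_mul, sg_mul, mul_one])

lemma coe_ofG (g : G) : ((ofG g : unitary (FullC G)) : FullC G) = toC (sg g 1) := rfl

lemma toC_mem_span (x : GA G) :
    toC x ∈ Submodule.span ℂ (range fun g : G => ((ofG g : unitary (FullC G)) : FullC G)) := by
  induction x using GA.induction with
  | h0 => exact Submodule.zero_mem _
  | hadd x y hx hy => rw [toC_add]; exact Submodule.add_mem _ hx hy
  | hs g c =>
    have h1 : sg g c = c • sg g 1 := by rw [smul_sg, mul_one]
    rw [h1, toC_smul]
    exact Submodule.smul_mem _ _ (Submodule.subset_span ⟨g, rfl⟩)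

end completion

lemma norm_one_le_one (B : Type*) [CStarAlgebra B] : ‖(1 : B)‖ ≤ 1 := by
  have h := CStarRing.norm_star_mul_self (x := (1 : B))
  rw [star_one, mul_one] at h
  by_contra hc
  push Not at hc
  nlinarith

lemma norm_unitary_le_one {B : Type*} [CStarAlgebra B] (u : unitary B) : ‖(u : B)‖ ≤ 1 := by
  have h := CStarRing.norm_star_mul_self (x := (u : B))
  rw [Unitary.coe_star_mul_self] at h
  have h1 := norm_one_le_one B
  by_contra hc
  push Not at hc
  nlinarith

/-- `(A, ι)` is the full group C*-algebra `C*(G)`: `A` is a unital C*-algebra, `ι` a homomorphism of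
`G` into the unitary group of `A` whose range spans a dense subspace, and every homomorphism of `G`
into the unitary group of a unital C*-algebra `B` extends to a unital `*`-homomorphism `A → B`. -/
structure IsFullGroupCStar (G : Type*) [Group G] (A : Type u) [CStarAlgebra A]
    (ι : G →* unitary A) : Prop where
  dense_span : Dense (Submodule.span ℂ (range fun g => (ι g : A)) : Set A)
  exists_lift : ∀ (B : Type u) [CStarAlgebra B] (π : G →* unitary B),
    ∃ Φ : A →⋆ₐ[ℂ] B, ∀ g, Φ (ι g : A) = π g

theorem isFullGroupCStar_ofG (G : Type u) [Group G] : IsFullGroupCStar G (FullC G) ofG where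
  dense_span := by
    apply denseRange_toC.mono
    rintro _ ⟨x, rfl⟩
    exact toC_mem_span x
  exists_lift := by
    intro B _ π
    let π' : G →* B := (unitary B).subtype.comp π
    let φ : GA G →ₐ[ℂ] B := MonoidAlgebra.lift ℂ B G π'
    have hφ : ∀ g c, φ (sg g c) = c • (π g : B) := by
      intro g c
      exact MonoidAlgebra.lift_single _ _ _
    have hstar : ∀ x, φ (star x) = star (φ x) := by
      intro x
      induction x using GA.induction with
      | h0 => rw [star_zero, map_zero, star_zero]
      | hadd x y hx hy => rw [star_add, map_add, map_add, star_add, hx, hy]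
      | hs g c =>
        rw [star_sg, hφ, hφ, star_smul, map_inv, ← Unitary.star_eq_inv, Unitary.coe_star]
    have hsemi : IsCSemi (fun x => ‖φ x‖) := by
      refine ⟨fun x y => ?_, fun c x => ?_, fun x y => ?_, fun x => ?_, fun g => ?_⟩
      · simp only [map_add]; exact norm_add_le _ _
      · simp only [map_smul]; exact norm_smul _ _
      · simp only [map_mul]; exact norm_mul_le _ _
      · simp only [map_mul, hstar]
        rw [CStarRing.norm_star_mul_self, sq]
      · simp only [hφ, one_smul]
        exact norm_unitary_le_one _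
    have hle : ∀ x, ‖φ x‖ ≤ ‖x‖ := fun x => le_maxSemi hsemi x
    have hcont : Continuous φ := AddMonoidHomClass.continuous_of_bound φ 1 (by simpa using hle)
    let Φ : FullC G →+* B := Completion.extensionHom (φ : GA G →+* B) hcont
    have hΦc : Continuous Φ := Completion.continuous_extension
    have hΦ : ∀ x, Φ (toC x) = φ x := fun x => Completion.extensionHom_coe _ _ x
    refine ⟨{ Φ with
      commutes' := ?_
      map_star' := ?_ }, ?_⟩
    · intro c
      change Φ (algebraMap ℂ (FullC G) c) = _
      rw [Algebra.algebraMap_eq_smul_one, ← toC_one, ← toC_smul, hΦ, map_smul, map_one,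
        Algebra.algebraMap_eq_smul_one]
    · intro x
      change Φ (star x) = star (Φ x)
      refine denseRange_toC.induction_on x (isClosed_eq (hΦc.comp continuous_starC)
        (continuous_star.comp hΦc)) fun a => ?_
      rw [star_toC, hΦ, hΦ, hstar]
    · intro g
      change Φ (toC (sg g 1)) = _
      rw [hΦ, hφ, one_smul]

end Pool.Agent.helper27.Stab
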