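import Mathlib

/-!
# The C*-algebra `∏ B n / ⊕ B n`

`BddSeq B` is the C*-algebra of bounded sequences, `nullSeq B` the closed ideal of the sequences
tending to `0` in norm, `SeqQuot B` the quotient, with the quotient norm.
-/

open Filter Topology Set
open scoped ENNReal

noncomputable section

namespace Pool.Agent.helper27.Stab

variable (B : ℕ → Type*) [∀ n, NonUnitalCStarAlgebra (B n)]

/-- The C*-algebra `∏ B n` of the bounded sequences, with the supremum norm. -/
def BddSeq : Type _ := lp B ∞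

instance instBddSeq : NonUnitalCStarAlgebra (BddSeq B) :=
  inferInstanceAs (NonUnitalCStarAlgebra (lp B ∞))

variable {B}

/-- The `n`-th term of a bounded sequence. -/
def coord (b : BddSeq B) (n : ℕ) : B n := (show lp B ∞ from b) n

lemma coord_add (a b : BddSeq B) (n : ℕ) : coord (a + b) n = coord a n + coord b n := rfl
lemma coord_sub (a b : BddSeq B) (n : ℕ) : coord (a - b) n = coord a n - coord b n := rfl
lemma coord_mul (a b : BddSeq B) (n : ℕ) : coord (a * b) n = coord a n * coord b n := rfl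
lemma coord_smul (c : ℂ) (a : BddSeq B) (n : ℕ) : coord (c • a) n = c • coord a n := rfl
lemma coord_star (a : BddSeq B) (n : ℕ) : coord (star a) n = star (coord a n) := rfl
lemma coord_zero (n : ℕ) : coord (0 : BddSeq B) n = 0 := rfl

lemma norm_coord_le (a : BddSeq B) (n : ℕ) : ‖coord a n‖ ≤ ‖a‖ :=
  lp.norm_apply_le_norm (E := B) (p := ∞) (by simp) (show lp B ∞ from a) n

lemma norm_le_of_coord {a : BddSeq B} {r : ℝ} (hr : 0 ≤ r) (h : ∀ n, ‖coord a n‖ ≤ r) :
    ‖a‖ ≤ r :=
  lp.norm_le_of_forall_le (E := B) (f := (show lp B ∞ from a)) hr h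

lemma BddSeq.ext {a b : BddSeq B} (h : ∀ n, coord a n = coord b n) : a = b :=
  lp.ext (funext h)

/-- The bounded sequence with given terms. -/
def ofFun (f : ∀ n, B n) (h : ∃ C, ∀ n, ‖f n‖ ≤ C) : BddSeq B :=
  (⟨f, memℓp_infty (by
    obtain ⟨C, hC⟩ := h
    refine ⟨C, ?_⟩
    rintro _ ⟨n, rfl⟩
    exact hC n)⟩ : lp B ∞)

lemma coord_ofFun (f : ∀ n, B n) (h : ∃ C, ∀ n, ‖f n‖ ≤ C) (n : ℕ) : coord (ofFun f h) n = f n :=
  rfl

variable (B)

/-- The ideal `⊕ B n` of the sequences tending to `0` in norm. -/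
def nullSeq : Submodule ℂ (BddSeq B) where
  carrier := {b | Tendsto (fun n => ‖coord b n‖) atTop (𝓝 0)}
  zero_mem' := by simp [coord_zero]
  add_mem' := by
    intro a b ha hb
    have h := Tendsto.add ha hb
    rw [add_zero] at h
    exact squeeze_zero (fun n => norm_nonneg _) (fun n => norm_add_le (coord a n) (coord b n)) h
  smul_mem' := by
    intro c a ha
    have h := Tendsto.const_mul ‖c‖ ha
    rw [mul_zero] at h
    exact squeeze_zero (fun n => norm_nonneg _) (fun n => norm_smul_le c (coord a n)) h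

variable {B}

lemma mem_nullSeq {b : BddSeq B} :
    b ∈ nullSeq B ↔ Tendsto (fun n => ‖coord b n‖) atTop (𝓝 0) := Iff.rfl

lemma isClosed_nullSeq : IsClosed (nullSeq B : Set (BddSeq B)) := by
  rw [← isSeqClosed_iff_isClosed]
  intro x p hx hp
  change Tendsto (fun n => ‖coord p n‖) atTop (𝓝 0)
  rw [Metric.tendsto_atTop]
  intro ε hε
  have h1 := (Metric.tendsto_atTop.1 hp) (ε / 2) (half_pos hε)
  obtain ⟨N, hN⟩ := h1
  have h2 := hx N
  have h3 : Tendsto (fun n => ‖coord (x N) n‖) atTop (𝓝 0) := h2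
  obtain ⟨M, hM⟩ := (Metric.tendsto_atTop.1 h3) (ε / 2) (half_pos hε)
  refine ⟨M, fun n hn => ?_⟩
  have h4 := hM n hn
  rw [Real.dist_0_eq_abs, abs_of_nonneg (norm_nonneg _)] at h4 ⊢
  have h5 := hN N le_rfl
  rw [dist_eq_norm] at h5
  have h6 : ‖coord (x N - p) n‖ ≤ ‖x N - p‖ := norm_coord_le _ n
  have h7 : coord p n = coord (x N) n - coord (x N - p) n := by
    rw [coord_sub]; abel
  rw [h7]
  calc _ ≤ ‖coord (x N) n‖ + ‖coord (x N - p) n‖ := norm_sub_le _ _
    _ < ε / 2 + ε / 2 := by linarith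
    _ = ε := by ring

lemma mul_mem_left (a : BddSeq B) {b : BddSeq B} (hb : b ∈ nullSeq B) : a * b ∈ nullSeq B := by
  have h := Tendsto.const_mul ‖a‖ (mem_nullSeq.1 hb)
  rw [mul_zero] at h
  refine squeeze_zero (fun n => norm_nonneg _) (fun n => ?_) h
  rw [coord_mul]
  exact (norm_mul_le _ _).trans (by gcongr; exact norm_coord_le a n)

lemma mul_mem_right {a : BddSeq B} (b : BddSeq B) (ha : a ∈ nullSeq B) : a * b ∈ nullSeq B := by
  have h := Tendsto.mul_const ‖b‖ (mem_nullSeq.1 ha)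
  rw [zero_mul] at h
  refine squeeze_zero (fun n => norm_nonneg _) (fun n => ?_) h
  rw [coord_mul]
  exact (norm_mul_le _ _).trans (by gcongr; exact norm_coord_le b n)

lemma star_mem' {a : BddSeq B} (ha : a ∈ nullSeq B) : star a ∈ nullSeq B := by
  refine Tendsto.congr (fun n => ?_) (mem_nullSeq.1 ha)
  rw [coord_star, norm_star]

variable (B)

/-- The quotient `∏ B n / ⊕ B n`. -/
def SeqQuot : Type _ := BddSeq B ⧸ nullSeq B

instance : IsClosed (nullSeq B : Set (BddSeq B)) := isClosed_nullSeq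

instance : NormedAddCommGroup (SeqQuot B) :=
  Submodule.Quotient.normedAddCommGroup (nullSeq B)

instance : NormedSpace ℂ (SeqQuot B) :=
  Submodule.Quotient.normedSpace (nullSeq B) ℂ

instance : CompleteSpace (SeqQuot B) :=
  Submodule.Quotient.completeSpace (nullSeq B)

variable {B}

/-- The quotient map `∏ B n → ∏ B n / ⊕ B n`. -/
def mk (b : BddSeq B) : SeqQuot B := Submodule.Quotient.mk b

lemma mk_surjective : Function.Surjective (mk : BddSeq B → SeqQuot B) :=
  Submodule.Quotient.mk_surjective _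

lemma mk_eq {a b : BddSeq B} : mk a = mk b ↔ a - b ∈ nullSeq B :=
  Submodule.Quotient.eq _

lemma mk_add (a b : BddSeq B) : mk (a + b) = mk a + mk b := rfl

lemma mk_zero : mk (0 : BddSeq B) = 0 := rfl

lemma mk_smul (c : ℂ) (a : BddSeq B) : mk (c • a) = c • mk a := rfl

lemma norm_mk_le (a : BddSeq B) : ‖mk a‖ ≤ ‖a‖ :=
  Submodule.Quotient.norm_mk_le (nullSeq B) a

lemma exists_mk_lt (x : SeqQuot B) {ε : ℝ} (hε : 0 < ε) : ∃ a : BddSeq B, mk a = x ∧ ‖a‖ < ‖x‖ + ε :=
  Submodule.Quotient.norm_mk_lt x hε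

instance : Mul (SeqQuot B) where
  mul := Quotient.map₂ (· * ·) (by
    intro a a' ha b b' hb
    replace ha : a - a' ∈ nullSeq B := (Submodule.quotientRel_def _).1 ha
    replace hb : b - b' ∈ nullSeq B := (Submodule.quotientRel_def _).1 hb
    refine (Submodule.quotientRel_def _).2 ?_
    have h1 : a * b - a' * b' = (a - a') * b + a' * (b - b') := by
      rw [sub_mul, mul_sub]; abel
    rw [h1]
    exact (nullSeq B).add_mem (mul_mem_right _ ha) (mul_mem_left _ hb))

lemma mk_mul (a b : BddSeq B) : mk (a * b) = mk a * mk b := rfl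

instance : Star (SeqQuot B) where
  star := Quotient.map star (by
    intro a a' ha
    replace ha : a - a' ∈ nullSeq B := (Submodule.quotientRel_def _).1 ha
    refine (Submodule.quotientRel_def _).2 ?_
    rw [← star_sub]
    exact star_mem' ha)

lemma mk_star (a : BddSeq B) : mk (star a) = star (mk a) := rfl

instance : NonUnitalNormedRing (SeqQuot B) where
  __ := (inferInstance : NormedAddCommGroup (SeqQuot B))
  left_distrib := by
    intro a b c
    obtain ⟨a, rfl⟩ := mk_surjective a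
    obtain ⟨b, rfl⟩ := mk_surjective b
    obtain ⟨c, rfl⟩ := mk_surjective c
    rw [← mk_add, ← mk_mul, ← mk_mul, ← mk_mul, ← mk_add, mul_add]
  right_distrib := by
    intro a b c
    obtain ⟨a, rfl⟩ := mk_surjective a
    obtain ⟨b, rfl⟩ := mk_surjective b
    obtain ⟨c, rfl⟩ := mk_surjective c
    rw [← mk_add, ← mk_mul, ← mk_mul, ← mk_mul, ← mk_add, add_mul]
  zero_mul := by
    intro a
    obtain ⟨a, rfl⟩ := mk_surjective a
    rw [← mk_zero, ← mk_mul, zero_mul]
  mul_zero := by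
    intro a
    obtain ⟨a, rfl⟩ := mk_surjective a
    rw [← mk_zero, ← mk_mul, mul_zero]
  mul_assoc := by
    intro a b c
    obtain ⟨a, rfl⟩ := mk_surjective a
    obtain ⟨b, rfl⟩ := mk_surjective b
    obtain ⟨c, rfl⟩ := mk_surjective c
    rw [← mk_mul, ← mk_mul, ← mk_mul, ← mk_mul, mul_assoc]
  norm_mul_le := by
    intro x y
    have key : ∀ ε > 0, ‖x * y‖ ≤ (‖x‖ + ε) * (‖y‖ + ε) := by
      intro ε hε
      obtain ⟨a, ha, ha'⟩ := exists_mk_lt x hε
      obtain ⟨b, hb, hb'⟩ := exists_mk_lt y hε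
      rw [← ha, ← hb, ← mk_mul, ha, hb]
      exact (norm_mk_le _).trans ((norm_mul_le _ _).trans (by gcongr))
    have h1 : Tendsto (fun ε : ℝ => (‖x‖ + ε) * (‖y‖ + ε)) (𝓝[>] 0) (𝓝 ((‖x‖ + 0) * (‖y‖ + 0))) := by
      apply Tendsto.mono_left _ nhdsWithin_le_nhds
      apply Continuous.tendsto
      fun_prop
    rw [add_zero, add_zero] at h1
    exact ge_of_tendsto h1 (by filter_upwards [self_mem_nhdsWithin] with ε hε using key ε hε)

instance : StarRing (SeqQuot B) where
  star_involutive := by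
    intro a
    obtain ⟨a, rfl⟩ := mk_surjective a
    rw [← mk_star, ← mk_star, star_star]
  star_mul := by
    intro a b
    obtain ⟨a, rfl⟩ := mk_surjective a
    obtain ⟨b, rfl⟩ := mk_surjective b
    rw [← mk_mul, ← mk_star, ← mk_star, ← mk_star, ← mk_mul, star_mul]
  star_add := by
    intro a b
    obtain ⟨a, rfl⟩ := mk_surjective a
    obtain ⟨b, rfl⟩ := mk_surjective b
    rw [← mk_add, ← mk_star, ← mk_star, ← mk_star, ← mk_add, star_add]

/-- The truncated sequence. -/
lemma exists_tail (a : BddSeq B) (N : ℕ) : ∃ a' : BddSeq B, mk a' = mk a ∧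
    (∀ n, N ≤ n → coord a' n = coord a n) ∧ ∀ n, n < N → coord a' n = 0 := by
  let f : ∀ n, B n := fun n => if N ≤ n then coord a n else 0
  have hf : ∃ C, ∀ n, ‖f n‖ ≤ C := by
    refine ⟨‖a‖, fun n => ?_⟩
    simp only [f]
    split_ifs
    · exact norm_coord_le a n
    · simp
  refine ⟨ofFun f hf, ?_, ?_, ?_⟩
  · rw [mk_eq, mem_nullSeq]
    apply tendsto_const_nhds.congr'
    filter_upwards [eventually_ge_atTop N] with n hn
    rw [coord_sub, coord_ofFun]
    simp [f, hn]
  · intro n hn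
    rw [coord_ofFun]
    simp [f, hn]
  · intro n hn
    rw [coord_ofFun]
    simp [f, not_le.2 hn]

lemma norm_mk_le_of_eventually (a : BddSeq B) {r : ℝ} (hr : 0 ≤ r)
    (h : ∀ᶠ n in atTop, ‖coord a n‖ ≤ r) : ‖mk a‖ ≤ r := by
  obtain ⟨N, hN⟩ := eventually_atTop.1 h
  obtain ⟨a', h1, h2, h3⟩ := exists_tail a N
  rw [← h1]
  refine (norm_mk_le _).trans (norm_le_of_coord hr fun n => ?_)
  rcases le_or_gt N n with hn | hn
  · rw [h2 n hn]; exact hN n hn
  · rw [h3 n hn]; simpa using hr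

lemma eventually_norm_le (a : BddSeq B) {r : ℝ} (h : ‖mk a‖ < r) :
    ∀ᶠ n in atTop, ‖coord a n‖ ≤ r := by
  obtain ⟨b, hb, hb'⟩ := exists_mk_lt (mk a) (ε := (r - ‖mk a‖) / 2) (by linarith)
  rw [mk_eq, mem_nullSeq] at hb
  have h1 := (Metric.tendsto_atTop.1 hb) ((r - ‖mk a‖) / 2) (by linarith)
  obtain ⟨N, hN⟩ := h1
  filter_upwards [eventually_ge_atTop N] with n hn
  have h2 := hN n hn
  rw [Real.dist_0_eq_abs, abs_of_nonneg (norm_nonneg _)] at h2
  have h3 : coord a n = coord b n - coord (b - a) n := by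
    rw [coord_sub]; abel
  rw [h3]
  have h4 : ‖coord b n‖ ≤ ‖b‖ := norm_coord_le b n
  calc _ ≤ ‖coord b n‖ + ‖coord (b - a) n‖ := norm_sub_le _ _
    _ ≤ r := by linarith

instance : CStarRing (SeqQuot B) where
  norm_mul_self_le := by
    intro x
    obtain ⟨a, rfl⟩ := mk_surjective x
    rw [← mk_star, ← mk_mul]
    apply le_of_forall_pos_le_add
    intro ε hε
    have h1 := eventually_norm_le (star a * a) (r := ‖mk (star a * a)‖ + ε) (by linarith)
    have h0 : 0 ≤ ‖mk (star a * a)‖ + ε := by positivity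
    have h2 : ‖mk a‖ ≤ Real.sqrt (‖mk (star a * a)‖ + ε) := by
      apply norm_mk_le_of_eventually _ (Real.sqrt_nonneg _)
      filter_upwards [h1] with n hn
      apply Real.le_sqrt_of_sq_le
      rw [coord_mul, coord_star, CStarRing.norm_star_mul_self] at hn
      rwa [sq]
    calc ‖mk a‖ * ‖mk a‖ ≤ Real.sqrt (‖mk (star a * a)‖ + ε) * Real.sqrt (‖mk (star a * a)‖ + ε) := by
          gcongr
      _ = _ := Real.mul_self_sqrt h0

instance : NonUnitalCStarAlgebra (SeqQuot B) where
  smul_assoc := by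
    intro c a b
    obtain ⟨a, rfl⟩ := mk_surjective a
    obtain ⟨b, rfl⟩ := mk_surjective b
    rw [smul_eq_mul, smul_eq_mul, ← mk_smul, ← mk_mul, ← mk_mul, ← mk_smul, smul_mul_assoc]
  smul_comm := by
    intro c a b
    obtain ⟨a, rfl⟩ := mk_surjective a
    obtain ⟨b, rfl⟩ := mk_surjective b
    rw [smul_eq_mul, smul_eq_mul, ← mk_smul, ← mk_mul, ← mk_mul, ← mk_smul, mul_smul_comm]
  star_smul := by
    intro c a
    obtain ⟨a, rfl⟩ := mk_surjective a
    rw [← mk_smul, ← mk_star, ← mk_star, star_smul, mk_smul]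

variable (B)

/-- The quotient map `∏ B n → ∏ B n / ⊕ B n` as a `*`-homomorphism. -/
def mkHom : BddSeq B →⋆ₙₐ[ℂ] SeqQuot B where
  toFun := mk
  map_smul' := fun c a => mk_smul c a
  map_zero' := mk_zero
  map_add' := mk_add
  map_mul' := mk_mul
  map_star' := mk_star

end Pool.Agent.helper27.Stab
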