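import Mathlib
import Pool.Agent.helper27.SeqQuot
import Pool.Agent.helper27.FullGroup

/-!
# Representations in non-unital C*-algebras and the full group C*-algebra
-/

open Filter Topology Set
open scoped ENNReal

noncomputable section

namespace Pool.Agent.helper27.Stab

universe u

/-- A map `π` of a group into the elements of a (possibly non-unital) C*-algebra with
`π (g h) = π g π h` and `π g⁻¹ = (π g)*`. -/
structure IsRep {G : Type*} [Group G] {B : Type*} [Mul B] [Star B] (π : G → B) : Prop where
  mul : ∀ g h, π (g * h) = π g * π h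
  inv : ∀ g, π g⁻¹ = star (π g)

namespace IsRep

variable {G : Type*} [Group G] {B : Type*} [NonUnitalCStarAlgebra B] {π : G → B} (hπ : IsRep π)
include hπ

lemma one_mul (g : G) : π 1 * π g = π g := by rw [← hπ.mul, _root_.one_mul]
lemma mul_one (g : G) : π g * π 1 = π g := by rw [← hπ.mul, _root_.mul_one]
lemma star_one : star (π 1) = π 1 := by rw [← hπ.inv, inv_one]

end IsRep

theorem lift_rep {G : Type*} [Group G] {A : Type u} [CStarAlgebra A] {ι : G →* unitary A}
    (hA : IsFullGroupCStar G A ι) {B : Type u} [NonUnitalCStarAlgebra B] {π : G → B}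
    (hπ : IsRep π) : ∃ Φ : A →⋆ₙₐ[ℂ] B, ∀ g, Φ (ι g : A) = π g := by
  let D := Unitization ℂ B
  let j : B →⋆ₙₐ[ℂ] D := Unitization.inrNonUnitalStarAlgHom ℂ B
  have hj : Function.Injective j := Unitization.inr_injective
  set P : D := j (π 1) with hP
  have hPP : P * P = P := by rw [hP, ← map_mul, hπ.one_mul]
  have hPx : ∀ g, P * j (π g) = j (π g) := fun g => by rw [hP, ← map_mul, hπ.one_mul]
  have hxP : ∀ g, j (π g) * P = j (π g) := fun g => by rw [hP, ← map_mul, hπ.mul_one]
  have hPs : star P = P := by rw [hP, ← map_star, hπ.star_one]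
  let u : G → D := fun g => 1 - P + j (π g)
  have hu1 : u 1 = 1 := by simp [u, hP]
  have humul : ∀ g h, u (g * h) = u g * u h := by
    intro g h
    simp only [u]
    rw [hπ.mul, map_mul]
    simp only [mul_add, add_mul, sub_mul, mul_sub, hPP, hPx, hxP, _root_.one_mul, _root_.mul_one]
    abel
  have hustar : ∀ g, star (u g) = u g⁻¹ := by
    intro g
    simp only [u]
    rw [star_add, star_sub, star_one, hPs, ← map_star, hπ.inv]
  let U : G →* unitary D :=
    { toFun := fun g => ⟨u g, by
        rw [Unitary.mem_iff, hustar, ← humul, ← humul, inv_mul_cancel, mul_inv_cancel, hu1]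
        exact ⟨rfl, rfl⟩⟩
      map_one' := Subtype.ext hu1
      map_mul' := fun g h => Subtype.ext (humul g h) }
  obtain ⟨Ψ, hΨ⟩ := hA.exists_lift D U
  have hΨc : Continuous Ψ := AddMonoidHomClass.continuous_of_bound Ψ 1 (fun a => by
    rw [_root_.one_mul]; exact NonUnitalStarAlgHom.norm_apply_le Ψ a)
  have hcomm : ∀ a, P * Ψ a = Ψ a * P := by
    intro a
    refine hA.dense_span.induction (P := fun a => P * Ψ a = Ψ a * P) ?_ ?_ a
    · intro x hx
      induction hx using Submodule.span_induction with
      | mem x hx =>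
        obtain ⟨g, rfl⟩ := hx
        rw [hΨ]
        change P * u g = u g * P
        simp only [u, mul_add, add_mul, sub_mul, mul_sub, hPP, hPx, hxP, _root_.one_mul,
          _root_.mul_one]
      | zero => rw [map_zero, zero_mul, mul_zero]
      | add x y _ _ hx hy => rw [map_add, mul_add, add_mul, hx, hy]
      | smul c x _ hx => rw [map_smul, mul_smul_comm, smul_mul_assoc, hx]
    · exact isClosed_eq (continuous_const.mul hΨc) (hΨc.mul continuous_const)
  have hfst : ∀ a, (P * Ψ a).fst = 0 := by
    intro a
    rw [Unitization.fst_mul, hP]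
    change (0 : ℂ) * _ = 0
    rw [zero_mul]
  have hinr : ∀ a, j (P * Ψ a).snd = P * Ψ a := by
    intro a
    apply Unitization.ext
    · rw [hfst]; rfl
    · rfl
  refine ⟨{ toFun := fun a => (P * Ψ a).snd
            map_smul' := ?_
            map_zero' := ?_
            map_add' := ?_
            map_mul' := ?_
            map_star' := ?_ }, ?_⟩
  · intro c a
    apply hj
    rw [hinr, MonoidHom.id_apply, map_smul, map_smul, hinr, mul_smul_comm]
  · apply hj
    rw [hinr, map_zero, map_zero, mul_zero]
  · intro a b
    apply hj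
    rw [hinr, map_add, map_add, hinr, hinr, mul_add]
  · intro a b
    apply hj
    rw [hinr, map_mul, map_mul, hinr, hinr]
    calc P * (Ψ a * Ψ b) = P * P * (Ψ a * Ψ b) := by rw [hPP]
      _ = P * (P * Ψ a) * Ψ b := by simp only [mul_assoc]
      _ = P * (Ψ a * P) * Ψ b := by rw [hcomm]
      _ = _ := by simp only [mul_assoc]
  · intro a
    apply hj
    rw [hinr, map_star, map_star, hinr, star_mul, hPs, ← map_star, hcomm]
  · intro g
    apply hj
    change j (P * Ψ (ι g : A)).snd = _
    rw [hinr, hΨ]
    change P * u g = _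
    simp only [u, mul_add, mul_sub, hPP, hPx, _root_.mul_one, sub_self, zero_add]

end Pool.Agent.helper27.Stab
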