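import Mathlib
import Pool.Agent.helper27.StabLift

/-!
# Approximate representations of finite groups in C*-algebras are close to representations
-/

open Filter Topology Set
open scoped ENNReal

noncomputable section

namespace Pool.Agent.helper27.Stab

section proj

variable {B : Type*} [NonUnitalCStarAlgebra B]

lemma exists_proj_near {h : B} (hh : IsSelfAdjoint h) {ε : ℝ} (hε : ε ≤ 1 / 8)
    (h1 : ‖h * h - h‖ ≤ ε) : ∃ p : B, IsStarProjection p ∧ ‖p - h‖ ≤ 2 * ε := by
  have hε0 : 0 ≤ ε := (norm_nonneg _).trans h1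
  let χ : ℝ → ℝ := fun t => max 0 (min 1 (2 * t - 1 / 2))
  have hχc : Continuous χ := by
    apply Continuous.max continuous_const
    apply Continuous.min continuous_const
    fun_prop
  have hχ0 : χ 0 = 0 := by simp [χ]
  have hsq : cfcₙ (fun t : ℝ => t * t - t) h = h * h - h := by
    rw [cfcₙ_sub (fun t : ℝ => t * t) (fun t => t) h, cfcₙ_mul (fun t : ℝ => t) (fun t => t) h,
      cfcₙ_id' ℝ h]
  have hspec : ∀ t ∈ quasispectrum ℝ h, |t * t - t| ≤ ε := by
    intro t ht
    have h2 := norm_apply_le_norm_cfcₙ (fun t : ℝ => t * t - t) h ht (by fun_prop) (by simp) hh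
    rw [hsq] at h2
    exact h2.trans h1
  have hcase : ∀ t ∈ quasispectrum ℝ h, (χ t = 0 ∧ |t| ≤ 2 * ε) ∨ (χ t = 1 ∧ |1 - t| ≤ 2 * ε) := by
    intro t ht
    have h2 := hspec t ht
    rw [abs_le] at h2
    rcases le_or_gt t (1 / 4) with h3 | h3
    · left
      constructor
      · simp only [χ]
        apply max_eq_left
        apply min_le_of_right_le
        linarith
      · rw [abs_le]
        constructor <;> nlinarith
    · rcases lt_or_ge t (3 / 4) with h4 | h4
      · exfalso; nlinarith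
      · right
        constructor
        · simp only [χ]
          rw [min_eq_left (by linarith), max_eq_right (by norm_num)]
        · rw [abs_le]
          constructor <;> nlinarith
  refine ⟨cfcₙ χ h, ⟨?_, cfcₙ_predicate χ h⟩, ?_⟩
  · rw [IsIdempotentElem, ← cfcₙ_mul χ χ h hχc.continuousOn hχ0 hχc.continuousOn hχ0]
    apply cfcₙ_congr
    intro t ht
    rcases hcase t ht with h2 | h2 <;> simp [h2.1]
  · have h2 : cfcₙ χ h - h = cfcₙ (fun t => χ t - t) h := by
      rw [cfcₙ_sub χ (fun t => t) h hχc.continuousOn hχ0 (by fun_prop) (by simp), cfcₙ_id' ℝ h]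
    rw [h2]
    apply norm_cfcₙ_le
    intro t ht
    rw [Real.norm_eq_abs]
    rcases hcase t ht with h3 | h3
    · rw [h3.1, zero_sub, abs_neg]; exact h3.2
    · rw [h3.1]; exact h3.2

end proj

section polar

variable {D : Type*} [CStarAlgebra D]

lemma exists_unitary_near {x : D} {η : ℝ} (hη : η ≤ 1 / 2) (h1 : ‖star x * x - 1‖ ≤ η)
    (h2 : ‖x * star x - 1‖ ≤ η) : ∃ v ∈ unitary D, ‖v - x‖ ≤ 2 * η := by
  have hη0 : 0 ≤ η := (norm_nonneg _).trans h1
  set b := star x * x with hb
  have hbs : IsSelfAdjoint b := IsSelfAdjoint.star_mul_self x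
  have hspec : ∀ t ∈ spectrum ℝ b, |t - 1| ≤ η := by
    intro t ht
    have h3 := norm_apply_le_norm_cfc (fun t : ℝ => t - 1) b ht (by fun_prop) hbs
    have h4 : cfc (fun t : ℝ => t - 1) b = b - 1 := by
      rw [cfc_sub (fun t : ℝ => t) (fun _ => 1) b, cfc_id' ℝ b, cfc_const_one ℝ b]
    rw [h4] at h3
    exact h3.trans h1
  have hpos : ∀ t ∈ spectrum ℝ b, 1 / 2 ≤ t := by
    intro t ht
    have := (abs_le.1 (hspec t ht)).1
    linarith
  let F : ℝ → ℝ := fun t => (Real.sqrt t)⁻¹
  have hFc : ContinuousOn F (spectrum ℝ b) := by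
    apply ContinuousOn.inv₀ (Real.continuous_sqrt.continuousOn)
    intro t ht
    have := hpos t ht
    have : 0 < Real.sqrt t := Real.sqrt_pos.2 (by linarith)
    exact this.ne'
  set c := cfc F b with hc
  have hcs : IsSelfAdjoint c := cfc_predicate F b
  have hcbc : c * b * c = 1 := by
    have h3 : cfc (fun t => F t * t * F t) b = c * b * c := by
      rw [cfc_mul (fun t => F t * t) F b (hFc.mul continuousOn_id) hFc,
        cfc_mul F (fun t => t) b hFc continuousOn_id, cfc_id' ℝ b]
    rw [← h3, ← cfc_const_one ℝ b]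
    apply cfc_congr
    intro t ht
    have h4 := hpos t ht
    have h5 : 0 < Real.sqrt t := Real.sqrt_pos.2 (by linarith)
    have h6 : Real.sqrt t * Real.sqrt t = t := Real.mul_self_sqrt (by linarith)
    simp only [F]
    field_simp
    rw [sq, h6]
  have hc1 : ‖c - 1‖ ≤ η := by
    have h3 : c - 1 = cfc (fun t => F t - 1) b := by
      rw [cfc_sub F (fun _ => 1) b hFc continuousOn_const, cfc_const_one ℝ b]
    rw [h3]
    apply norm_cfc_le hη0
    intro t ht
    have h4 := hpos t ht
    have h5 : 0 < Real.sqrt t := Real.sqrt_pos.2 (by linarith)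
    have h6 : Real.sqrt t * Real.sqrt t = t := Real.mul_self_sqrt (by linarith)
    have h7 : 7 / 10 ≤ Real.sqrt t := Real.le_sqrt_of_sq_le (by linarith)
    have h8 : F t - 1 = (1 - t) * (Real.sqrt t * (1 + Real.sqrt t))⁻¹ := by
      simp only [F]
      have h9 : (1 + Real.sqrt t) ≠ 0 := by positivity
      field_simp
      nlinarith
    rw [Real.norm_eq_abs, h8, abs_mul]
    have h9 : |(Real.sqrt t * (1 + Real.sqrt t))⁻¹| ≤ 1 := by
      rw [abs_of_nonneg (by positivity)]
      apply inv_le_one_of_one_le₀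
      nlinarith
    have h10 := hspec t ht
    rw [abs_sub_comm] at h10
    calc |1 - t| * |(Real.sqrt t * (1 + Real.sqrt t))⁻¹| ≤ η * 1 := by gcongr
      _ = η := mul_one _
  have hx : ‖x‖ ≤ 2 := by
    have h3 : ‖x‖ * ‖x‖ = ‖b‖ := (CStarRing.norm_star_mul_self).symm
    have h4 : ‖b‖ ≤ ‖b - 1‖ + ‖(1 : D)‖ := by
      calc ‖b‖ = ‖b - 1 + 1‖ := by rw [sub_add_cancel]
        _ ≤ _ := norm_add_le _ _
    have h5 := norm_one_le_one D
    by_contra h6
    push Not at h6
    nlinarith
  have hsv : star (x * c) * (x * c) = 1 := by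
    rw [star_mul, hcs.star_eq, ← hcbc, hb]
    simp only [mul_assoc]
  have hux : IsUnit x := by
    have h3 : IsUnit (star x * x) := by
      have : IsUnit (1 - (1 - b)) := isUnit_one_sub_of_norm_lt_one (by
        rw [norm_sub_rev]; linarith)
      rwa [sub_sub_cancel] at this
    have h4 : IsUnit (x * star x) := by
      have : IsUnit (1 - (1 - x * star x)) := isUnit_one_sub_of_norm_lt_one (by
        rw [norm_sub_rev]; linarith)
      rwa [sub_sub_cancel] at this
    obtain ⟨u, hu⟩ := h3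
    obtain ⟨w, hw⟩ := h4
    exact isUnit_iff_exists_and_exists.2 ⟨⟨star x * (↑w⁻¹ : D), by rw [← mul_assoc, ← hw]; simp⟩,
      ⟨(↑u⁻¹ : D) * star x, by rw [mul_assoc, ← hu]; simp⟩⟩
  have huc : IsUnit c := isUnit_iff_exists_and_exists.2
    ⟨⟨b * c, by rw [← mul_assoc, hcbc]⟩, ⟨c * b, hcbc⟩⟩
  refine ⟨x * c, ?_, ?_⟩
  · rw [Unitary.mem_iff]
    refine ⟨hsv, ?_⟩
    obtain ⟨w, hw⟩ := hux.mul huc
    have h3 : star (x * c) = (↑w⁻¹ : D) := by
      apply left_inv_eq_right_inv hsv
      rw [← hw]; simp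
    rw [h3, ← hw]; simp
  · have h3 : x * c - x = x * (c - 1) := by rw [mul_sub, mul_one]
    rw [h3]
    calc ‖x * (c - 1)‖ ≤ ‖x‖ * ‖c - 1‖ := norm_mul_le _ _
      _ ≤ 2 * η := by gcongr

end polar

section corner

universe u

/-- A C*-algebra with a two-sided unit, as a unital C*-algebra. -/
@[reducible] def ofUnit (S : Type u) [NonUnitalCStarAlgebra S] (e : S) (h1 : ∀ x, e * x = x)
    (h2 : ∀ x, x * e = x) : CStarAlgebra S :=
  let R : Ring S := { (inferInstance : NonUnitalRing S) with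
    one := e
    one_mul := h1
    mul_one := h2 }
  let NR : NormedRing S := { (inferInstance : NonUnitalNormedRing S), R with }
  let A : Algebra ℂ S := Algebra.ofModule (fun c x y => smul_mul_assoc c x y)
    (fun c x y => mul_smul_comm c x y)
  let NA : NormedAlgebra ℂ S := { A with norm_smul_le := fun c x => norm_smul_le c x }
  { NR, NA with
    star := star
    star_involutive := star_involutive
    star_mul := star_mul
    star_add := star_add
    complete := (inferInstance : CompleteSpace S).complete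
    norm_mul_self_le := CStarRing.norm_mul_self_le
    star_smul := star_smul }

lemma exists_corner {B : Type u} [NonUnitalCStarAlgebra B] {p : B} (hp : IsStarProjection p) :
    ∃ (D : Type u) (_ : CStarAlgebra D) (j : D →⋆ₙₐ[ℂ] B), (∀ d, ‖j d‖ = ‖d‖) ∧ j 1 = p ∧
      ∀ x, p * x = x → x * p = x → ∃ d, j d = x := by
  have hpp : p * p = p := hp.isIdempotentElem
  have hps : star p = p := hp.isSelfAdjoint
  let S : NonUnitalStarSubalgebra ℂ B :=
    { carrier := {x | p * x = x ∧ x * p = x}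
      zero_mem' := by simp
      add_mem' := by
        rintro x y ⟨h1, h2⟩ ⟨h3, h4⟩
        exact ⟨by rw [mul_add, h1, h3], by rw [add_mul, h2, h4]⟩
      smul_mem' := by
        rintro c x ⟨h1, h2⟩
        exact ⟨by rw [mul_smul_comm, h1], by rw [smul_mul_assoc, h2]⟩
      mul_mem' := by
        rintro x y ⟨h1, h2⟩ ⟨h3, h4⟩
        exact ⟨by rw [← mul_assoc, h1], by rw [mul_assoc, h4]⟩
      star_mem' := by
        rintro x ⟨h1, h2⟩
        refine ⟨?_, ?_⟩
        · have := congrArg star h2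
          rwa [star_mul, hps] at this
        · have := congrArg star h1
          rwa [star_mul, hps] at this }
  have hmem : ∀ x, x ∈ S ↔ p * x = x ∧ x * p = x := fun x => Iff.rfl
  have hcl : IsClosed (S : Set B) := by
    have : (S : Set B) = {x | p * x = x} ∩ {x | x * p = x} := rfl
    rw [this]
    exact (isClosed_eq (continuous_const.mul continuous_id) continuous_id).inter
      (isClosed_eq (continuous_id.mul continuous_const) continuous_id)
  let i1 : NonUnitalCStarAlgebra S := NonUnitalStarSubalgebra.nonUnitalCStarAlgebra S (h_closed := hcl)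
  let e : S := ⟨p, hpp, hpp⟩
  have he1 : ∀ x : S, e * x = x := fun x => Subtype.ext x.2.1
  have he2 : ∀ x : S, x * e = x := fun x => Subtype.ext x.2.2
  let i2 : CStarAlgebra S := ofUnit S e he1 he2
  refine ⟨S, i2, { toFun := fun x => (x : B)
                   map_smul' := fun c x => rfl
                   map_zero' := rfl
                   map_add' := fun x y => rfl
                   map_mul' := fun x y => rfl
                   map_star' := fun x => rfl }, ?_, ?_, ?_⟩
  · intro d
    rfl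
  · rfl
  · intro x h1 h2
    exact ⟨⟨x, h1, h2⟩, rfl⟩

end corner

section average

variable {D : Type*} [CStarAlgebra D] {K : Type*} [Group K] [Fintype K]

set_option linter.unusedSectionVars false

/-- The average of a function on a finite group. -/
def av (f : K → D) : D := ((Fintype.card K : ℂ)⁻¹) • ∑ x, f x

lemma card_ne : (Fintype.card K : ℂ) ≠ 0 := by
  have : 0 < Fintype.card K := Fintype.card_pos
  exact_mod_cast this.ne'

lemma av_const (c : D) : av (fun _ : K => c) = c := by
  rw [av, Finset.sum_const, Finset.card_univ, ← Nat.cast_smul_eq_nsmul ℂ, smul_smul,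
    inv_mul_cancel₀ card_ne, one_smul]

lemma av_add (f g : K → D) : av (fun x => f x + g x) = av f + av g := by
  rw [av, Finset.sum_add_distrib, smul_add]; rfl

lemma av_sub (f g : K → D) : av (fun x => f x - g x) = av f - av g := by
  rw [av, Finset.sum_sub_distrib, smul_sub]; rfl

lemma av_mul_left (c : D) (f : K → D) : av (fun x => c * f x) = c * av f := by
  rw [av, av, ← Finset.mul_sum, mul_smul_comm]

lemma av_mul_right (c : D) (f : K → D) : av (fun x => f x * c) = av f * c := by
  rw [av, av, ← Finset.sum_mul, smul_mul_assoc]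

lemma norm_av_le {f : K → D} {r : ℝ} (h : ∀ x, ‖f x‖ ≤ r) : ‖av f‖ ≤ r := by
  rw [av, norm_smul, norm_inv, Complex.norm_natCast]
  have h0 : (0 : ℝ) < Fintype.card K := by exact_mod_cast Fintype.card_pos
  rw [inv_mul_le_iff₀ h0]
  calc ‖∑ x, f x‖ ≤ ∑ x, ‖f x‖ := norm_sum_le _ _
    _ ≤ ∑ _x : K, r := Finset.sum_le_sum fun x _ => h x
    _ = _ := by rw [Finset.sum_const, Finset.card_univ, nsmul_eq_mul]

lemma av_comp (h : K) (f : K → D) : av (fun y => f (h * y)) = av f := by
  rw [av, av]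
  congr 1
  exact Equiv.sum_comp (Equiv.mulLeft h) f

lemma star_av (f : K → D) : star (av f) = av (fun x => star (f x)) := by
  rw [av, av, star_smul, star_sum, star_inv₀, star_natCast]

lemma norm_av_sub_le {f : K → D} {c : D} {r : ℝ} (h : ∀ x, ‖f x - c‖ ≤ r) : ‖av f - c‖ ≤ r := by
  have : av f - c = av (fun x => f x - c) := by rw [av_sub, av_const]
  rw [this]
  exact norm_av_le h

lemma av_cov (f g : K → D) :
    av (fun x => (f x - av f) * (g x - av g)) = av (fun x => f x * g x) - av f * av g := by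
  have h1 : ∀ x, (f x - av f) * (g x - av g) =
      (f x * g x - f x * av g) - (av f * g x - av f * av g) := by
    intro x; rw [sub_mul, mul_sub, mul_sub]
  simp_rw [h1]
  rw [av_sub, av_sub, av_sub, av_mul_right, av_mul_left, av_const]
  abel

/-- The average step of the iteration. -/
lemma step {δ : ℝ} (hδ : δ ≤ 1 / 64) {u : K → D} (hu : ∀ g, u g ∈ unitary D)
    (hm : ∀ g h, ‖u (g * h) - u g * u h‖ ≤ δ) :
    ∃ v : K → D, (∀ g, v g ∈ unitary D) ∧ (∀ g h, ‖v (g * h) - v g * v h‖ ≤ δ / 2) ∧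
      ∀ g, ‖v g - u g‖ ≤ 2 * δ := by
  have hδ0 : 0 ≤ δ := (norm_nonneg _).trans (hm 1 1)
  have hun : ∀ g, ‖u g‖ ≤ 1 := fun g => norm_unitary_le_one ⟨u g, hu g⟩
  have huu : ∀ g, star (u g) * u g = 1 := fun g => (Unitary.mem_iff.1 (hu g)).1
  have huu' : ∀ g, u g * star (u g) = 1 := fun g => (Unitary.mem_iff.1 (hu g)).2
  let a : K → K → D := fun g x => u (g * x) * star (u x)
  have ha : ∀ g x, ‖a g x - u g‖ ≤ δ := by
    intro g x
    have h1 : a g x - u g = (u (g * x) - u g * u x) * star (u x) := by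
      simp only [a]
      rw [sub_mul, mul_assoc (u g), huu', mul_one]
    rw [h1]
    calc _ ≤ ‖u (g * x) - u g * u x‖ * ‖star (u x)‖ := norm_mul_le _ _
      _ ≤ δ * 1 := by
        gcongr
        · exact hm _ _
        · rw [norm_star]; exact hun x
      _ = δ := mul_one _
  have haU : ∀ g x, star (a g x) * a g x = 1 := by
    intro g x
    simp only [a]
    rw [star_mul, star_star, mul_assoc, ← mul_assoc (star (u (g * x))), huu, one_mul, huu']
  have haU' : ∀ g x, a g x * star (a g x) = 1 := by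
    intro g x
    simp only [a]
    rw [star_mul, star_star, mul_assoc, ← mul_assoc (star (u x)), huu, one_mul, huu']
  have hab : ∀ g, ‖av (a g) - u g‖ ≤ δ := fun g => norm_av_sub_le (ha g)
  have haa : ∀ g x, ‖a g x - av (a g)‖ ≤ 2 * δ := by
    intro g x
    have h1 : a g x - av (a g) = (a g x - u g) - (av (a g) - u g) := by abel
    rw [h1]
    calc _ ≤ ‖a g x - u g‖ + ‖av (a g) - u g‖ := norm_sub_le _ _
      _ ≤ 2 * δ := by linarith [ha g x, hab g]
  have han : ∀ g, ‖av (a g)‖ ≤ 1 := by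
    intro g
    apply norm_av_le
    intro x
    calc ‖u (g * x) * star (u x)‖ ≤ ‖u (g * x)‖ * ‖star (u x)‖ := norm_mul_le _ _
      _ ≤ 1 * 1 := by
        gcongr
        · exact hun _
        · rw [norm_star]; exact hun x
      _ = 1 := mul_one _
  have hmul : ∀ g h, ‖av (a (g * h)) - av (a g) * av (a h)‖ ≤ 4 * δ ^ 2 := by
    intro g h
    have h1 : av (a (g * h)) = av (fun y => a g (h * y) * a h y) := by
      congr 1
      ext y
      simp only [a]
      rw [← mul_assoc g, mul_assoc (u (g * h * y)), ← mul_assoc (star (u (h * y))), huu, one_mul]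
    have h2 := av_cov (fun y => a g (h * y)) (a h)
    rw [av_comp h (a g)] at h2
    rw [h1, ← h2]
    apply norm_av_le
    intro y
    calc _ ≤ ‖a g (h * y) - av (a g)‖ * ‖a h y - av (a h)‖ := norm_mul_le _ _
      _ ≤ (2 * δ) * (2 * δ) := by
        gcongr
        · exact haa _ _
        · exact haa _ _
      _ = _ := by ring
  have hs1 : ∀ g, ‖star (av (a g)) * av (a g) - 1‖ ≤ 4 * δ ^ 2 := by
    intro g
    have h2 := av_cov (fun y => star (a g y)) (a g)
    rw [← star_av, show (fun x => star (a g x) * a g x) = fun _ => (1 : D) from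
      funext fun x => haU g x, av_const] at h2
    rw [norm_sub_rev, ← h2]
    apply norm_av_le
    intro y
    rw [← star_sub]
    calc _ ≤ ‖star (a g y - av (a g))‖ * ‖a g y - av (a g)‖ := norm_mul_le _ _
      _ ≤ (2 * δ) * (2 * δ) := by
        rw [norm_star]
        gcongr
        · exact haa _ _
        · exact haa _ _
      _ = _ := by ring
  have hs2 : ∀ g, ‖av (a g) * star (av (a g)) - 1‖ ≤ 4 * δ ^ 2 := by
    intro g
    have h2 := av_cov (a g) (fun y => star (a g y))
    rw [← star_av, show (fun x => a g x * star (a g x)) = fun _ => (1 : D) from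
      funext fun x => haU' g x, av_const] at h2
    rw [norm_sub_rev, ← h2]
    apply norm_av_le
    intro y
    rw [← star_sub]
    calc _ ≤ ‖a g y - av (a g)‖ * ‖star (a g y - av (a g))‖ := norm_mul_le _ _
      _ ≤ (2 * δ) * (2 * δ) := by
        rw [norm_star]
        gcongr
        · exact haa _ _
        · exact haa _ _
      _ = _ := by ring
  have hη : 4 * δ ^ 2 ≤ 1 / 2 := by nlinarith
  choose v hvu hv using fun g => exists_unitary_near hη (hs1 g) (hs2 g)
  have hvn : ∀ g, ‖v g‖ ≤ 1 := fun g => norm_unitary_le_one ⟨v g, hvu g⟩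
  refine ⟨v, hvu, fun g h => ?_, fun g => ?_⟩
  · have h1 : v (g * h) - v g * v h = (v (g * h) - av (a (g * h))) +
        (av (a (g * h)) - av (a g) * av (a h)) - ((v g - av (a g)) * v h +
          av (a g) * (v h - av (a h))) := by
      noncomm_ring
    rw [h1]
    have h2 : ‖(v g - av (a g)) * v h‖ ≤ 2 * (4 * δ ^ 2) * 1 :=
      (norm_mul_le _ _).trans (mul_le_mul (hv g) (hvn h) (norm_nonneg _) (by positivity))
    have h3 : ‖av (a g) * (v h - av (a h))‖ ≤ 1 * (2 * (4 * δ ^ 2)) :=
      (norm_mul_le _ _).trans (mul_le_mul (han g) (hv h) (norm_nonneg _) (by positivity))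
    calc _ ≤ ‖v (g * h) - av (a (g * h))‖ + ‖av (a (g * h)) - av (a g) * av (a h)‖ +
          (‖(v g - av (a g)) * v h‖ + ‖av (a g) * (v h - av (a h))‖) :=
        (norm_sub_le _ _).trans (add_le_add (norm_add_le _ _) (norm_add_le _ _))
      _ ≤ δ / 2 := by nlinarith [hv (g * h), hmul g h]
  · have h1 : v g - u g = (v g - av (a g)) + (av (a g) - u g) := by abel
    rw [h1]
    calc _ ≤ ‖v g - av (a g)‖ + ‖av (a g) - u g‖ := norm_add_le _ _
      _ ≤ 2 * δ := by nlinarith [hv g, hab g]

/-- Almost multiplicative unitary valued maps on finite groups are close to representations. -/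
theorem exists_rep_near_unitary {δ : ℝ} (hδ : δ ≤ 1 / 64) {u : K → D} (hu : ∀ g, u g ∈ unitary D)
    (hm : ∀ g h, ‖u (g * h) - u g * u h‖ ≤ δ) :
    ∃ v : K → D, (∀ g, v g ∈ unitary D) ∧ (∀ g h, v (g * h) = v g * v h) ∧
      ∀ g, ‖v g - u g‖ ≤ 4 * δ := by
  have hδ0 : 0 ≤ δ := (norm_nonneg _).trans (hm 1 1)
  let P : ℝ → (K → D) → Prop := fun d w => (∀ g, w g ∈ unitary D) ∧
    ∀ g h, ‖w (g * h) - w g * w h‖ ≤ d
  have hstep : ∀ (n : ℕ) (w : {w : K → D // P (δ / 2 ^ n) w}),
      ∃ w' : {w : K → D // P (δ / 2 ^ (n + 1)) w}, ∀ g, ‖w'.1 g - w.1 g‖ ≤ 2 * (δ / 2 ^ n) := by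
    intro n w
    have h1 : δ / 2 ^ n ≤ 1 / 64 :=
      (div_le_self hδ0 (one_le_pow₀ (by norm_num))).trans hδ
    obtain ⟨v, h2, h3, h4⟩ := step h1 w.2.1 w.2.2
    refine ⟨⟨v, h2, fun g h => ?_⟩, h4⟩
    rw [pow_succ, ← div_div]
    exact h3 g h
  choose F hF using hstep
  let W : ∀ n : ℕ, {w : K → D // P (δ / 2 ^ n) w} := fun n =>
    Nat.rec (motive := fun n => {w : K → D // P (δ / 2 ^ n) w}) ⟨u, hu, by simpa using hm⟩
      (fun n w => F n w) n
  have hW0 : (W 0).1 = u := rfl
  have hW : ∀ n g, dist ((W n).1 g) ((W (n + 1)).1 g) ≤ (4 * δ) / 2 / 2 ^ n := by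
    intro n g
    rw [dist_comm, dist_eq_norm]
    have := hF n (W n) g
    calc _ ≤ 2 * (δ / 2 ^ n) := this
      _ = _ := by ring
  have hlim : ∀ g, ∃ x, Tendsto (fun n => (W n).1 g) atTop (𝓝 x) := fun g =>
    cauchySeq_tendsto_of_complete (cauchySeq_of_le_geometric_two (hW · g))
  choose v hv using hlim
  refine ⟨v, fun g => ?_, fun g h => ?_, fun g => ?_⟩
  · rw [Unitary.mem_iff]
    constructor
    · have h1 : Tendsto (fun n => star ((W n).1 g) * (W n).1 g) atTop (𝓝 (star (v g) * v g)) :=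
        ((hv g).star).mul (hv g)
      have h2 : ∀ n, star ((W n).1 g) * (W n).1 g = 1 := fun n => (Unitary.mem_iff.1 ((W n).2.1 g)).1
      simp_rw [h2] at h1
      exact (tendsto_nhds_unique h1 tendsto_const_nhds)
    · have h1 : Tendsto (fun n => (W n).1 g * star ((W n).1 g)) atTop (𝓝 (v g * star (v g))) :=
        (hv g).mul ((hv g).star)
      have h2 : ∀ n, (W n).1 g * star ((W n).1 g) = 1 := fun n => (Unitary.mem_iff.1 ((W n).2.1 g)).2
      simp_rw [h2] at h1
      exact (tendsto_nhds_unique h1 tendsto_const_nhds)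
  · have h1 : Tendsto (fun n => ‖(W n).1 (g * h) - (W n).1 g * (W n).1 h‖) atTop
        (𝓝 ‖v (g * h) - v g * v h‖) := ((hv (g * h)).sub ((hv g).mul (hv h))).norm
    have h2 : Tendsto (fun n : ℕ => δ / 2 ^ n) atTop (𝓝 0) := by
      have := tendsto_pow_atTop_nhds_zero_of_lt_one (r := (1 / 2 : ℝ)) (by norm_num) (by norm_num)
      have := this.const_mul δ
      rw [mul_zero] at this
      refine this.congr fun n => ?_
      rw [one_div, inv_pow]; rfl
    have h3 : ‖v (g * h) - v g * v h‖ ≤ 0 :=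
      le_of_tendsto_of_tendsto' h1 h2 fun n => (W n).2.2 g h
    exact sub_eq_zero.1 (norm_le_zero_iff.1 h3)
  · have h1 := dist_le_of_le_geometric_two_of_tendsto₀ (hu₂ := fun n => hW n g) (hv g)
    rw [hW0, dist_comm, dist_eq_norm] at h1
    exact h1

end average

section main

universe u

variable {B : Type u} [NonUnitalCStarAlgebra B] {K : Type*} [Group K] [Finite K]

omit [Finite K] in
lemma norm_proj_le {p : B} (hp : IsStarProjection p) : ‖p‖ ≤ 1 := by
  have h1 := CStarRing.norm_star_mul_self (x := p)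
  rw [hp.isSelfAdjoint.star_eq, hp.isIdempotentElem.eq] at h1
  by_contra h2
  push Not at h2
  nlinarith

/-- Approximate representations of finite groups are close to representations. -/
theorem exists_rep_near {δ : ℝ} (hδ : δ ≤ 1 / 100000) {f : K → B}
    (h1 : ∀ g h, ‖f (g * h) - f g * f h‖ ≤ δ) (h2 : ∀ g, ‖f g⁻¹ - star (f g)‖ ≤ δ) :
    ∃ ρ : K → B, IsRep ρ ∧ ∀ g, ‖ρ g - f g‖ ≤ 6400 * δ := by
  have hδ0 : 0 ≤ δ := (norm_nonneg _).trans (h1 1 1)
  have hfi : Fintype K := Fintype.ofFinite K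
  -- norm bounds
  have hsq : ∀ g, ‖f g‖ * ‖f g‖ ≤ ‖f 1‖ + δ + δ * ‖f g‖ := by
    intro g
    rw [← CStarRing.norm_star_mul_self]
    have h3 : star (f g) * f g = f 1 - (f (g⁻¹ * g) - f g⁻¹ * f g) -
        (f g⁻¹ - star (f g)) * f g := by
      rw [inv_mul_cancel]; noncomm_ring
    rw [h3]
    calc _ ≤ ‖f 1 - (f (g⁻¹ * g) - f g⁻¹ * f g)‖ + ‖(f g⁻¹ - star (f g)) * f g‖ :=
          norm_sub_le _ _
      _ ≤ (‖f 1‖ + ‖f (g⁻¹ * g) - f g⁻¹ * f g‖) + ‖f g⁻¹ - star (f g)‖ * ‖f g‖ := by
          gcongr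
          · exact norm_sub_le _ _
          · exact norm_mul_le _ _
      _ ≤ _ := by
          gcongr
          · exact h1 _ _
          · exact h2 g
  have hf1 : ‖f 1‖ ≤ 3 / 2 := by
    have h3 := hsq 1
    have h4 := norm_nonneg (f 1)
    by_contra h5
    push Not at h5
    nlinarith
  have hf : ∀ g, ‖f g‖ ≤ 2 := by
    intro g
    have h3 := hsq g
    have h4 := norm_nonneg (f g)
    by_contra h5
    push Not at h5
    nlinarith
  -- the projection
  set a := f 1 with ha
  set h := (1 / 2 : ℝ) • (a + star a) with hh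
  have hhs : IsSelfAdjoint h := by
    rw [isSelfAdjoint_iff, hh, star_smul, star_add, star_star, star_trivial, add_comm]
  have haa : ‖star a - a‖ ≤ δ := by
    have h3 := h2 1
    rwa [inv_one, norm_sub_rev] at h3
  have hha : ‖h - a‖ ≤ δ / 2 := by
    have h3 : h - a = (1 / 2 : ℝ) • (star a - a) := by
      rw [hh, smul_add, smul_sub]
      have : a = (1 / 2 : ℝ) • a + (1 / 2 : ℝ) • a := by rw [← add_smul]; norm_num
      nth_rewrite 3 [this]
      abel
    rw [h3, norm_smul]
    norm_num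
    linarith
  have ha2 : ‖a * a - a‖ ≤ δ := by
    have h3 := h1 1 1
    rwa [mul_one, norm_sub_rev] at h3
  have hhn : ‖h‖ ≤ 2 := by
    calc ‖h‖ = ‖a + (h - a)‖ := by rw [add_sub_cancel]
      _ ≤ ‖a‖ + ‖h - a‖ := norm_add_le _ _
      _ ≤ 2 := by linarith
  have hh2 : ‖h * h - h‖ ≤ 4 * δ := by
    have h3 : h * h - h = (h - a) * h + a * (h - a) + (a * a - a) - (h - a) := by noncomm_ring
    rw [h3]
    have h4 : ‖(h - a) * h‖ ≤ δ / 2 * 2 :=
      (norm_mul_le _ _).trans (mul_le_mul hha hhn (norm_nonneg _) (by positivity))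
    have h5 : ‖a * (h - a)‖ ≤ 3 / 2 * (δ / 2) :=
      (norm_mul_le _ _).trans (mul_le_mul hf1 hha (norm_nonneg _) (by positivity))
    calc _ ≤ ‖(h - a) * h‖ + ‖a * (h - a)‖ + ‖a * a - a‖ + ‖h - a‖ :=
          (norm_sub_le _ _).trans (add_le_add ((norm_add_le _ _).trans
            (add_le_add (norm_add_le _ _) le_rfl)) le_rfl)
      _ ≤ 4 * δ := by linarith
  obtain ⟨p, hp, hph⟩ := exists_proj_near hhs (ε := 4 * δ) (by linarith) hh2
  have hpn := norm_proj_le hp
  have hpp : p * p = p := hp.isIdempotentElem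
  have hps : star p = p := hp.isSelfAdjoint
  have hpa : ‖p - a‖ ≤ 9 * δ := by
    have h3 : p - a = (p - h) + (h - a) := by abel
    rw [h3]
    exact (norm_add_le _ _).trans (by linarith)
  have hpf : ∀ g, ‖p * f g - f g‖ ≤ 19 * δ := by
    intro g
    have h3 : p * f g - f g = (p - a) * f g - (f (1 * g) - a * f g) := by
      rw [one_mul]; noncomm_ring
    rw [h3]
    have h4 : ‖(p - a) * f g‖ ≤ 9 * δ * 2 :=
      (norm_mul_le _ _).trans (mul_le_mul hpa (hf g) (norm_nonneg _) (by positivity))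
    exact (norm_sub_le _ _).trans (by linarith [h1 1 g])
  have hfp : ∀ g, ‖f g * p - f g‖ ≤ 19 * δ := by
    intro g
    have h3 : f g * p - f g = f g * (p - a) - (f (g * 1) - f g * a) := by
      rw [mul_one]; noncomm_ring
    rw [h3]
    have h4 : ‖f g * (p - a)‖ ≤ 2 * (9 * δ) :=
      (norm_mul_le _ _).trans (mul_le_mul (hf g) hpa (norm_nonneg _) (by positivity))
    exact (norm_sub_le _ _).trans (by linarith [h1 g 1])
  let q : K → B := fun g => p * f g * p
  have hq : ∀ g, ‖q g - f g‖ ≤ 38 * δ := by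
    intro g
    have h3 : q g - f g = p * (f g * p - f g) + (p * f g - f g) := by
      simp only [q]; noncomm_ring
    rw [h3]
    have h4 : ‖p * (f g * p - f g)‖ ≤ 1 * (19 * δ) :=
      (norm_mul_le _ _).trans (mul_le_mul hpn (hfp g) (norm_nonneg _) (by positivity))
    exact (norm_add_le _ _).trans (by linarith [hpf g])
  have hqn : ∀ g, ‖q g‖ ≤ 2 := by
    intro g
    calc ‖p * f g * p‖ ≤ ‖p * f g‖ * ‖p‖ := norm_mul_le _ _
      _ ≤ (‖p‖ * ‖f g‖) * ‖p‖ := by gcongr; exact norm_mul_le _ _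
      _ ≤ (1 * 2) * 1 := by gcongr; exact hf g
      _ = 2 := by norm_num
  have hqs1 : ∀ g, ‖star (q g) * q g - p‖ ≤ 164 * δ := by
    intro g
    have h3 : star (q g) * q g - p = star (q g - f g) * q g + star (f g) * (q g - f g)
        - (f g⁻¹ - star (f g)) * f g - (f (g⁻¹ * g) - f g⁻¹ * f g) + (a - p) := by
      rw [inv_mul_cancel, star_sub]; noncomm_ring
    have h4 : ‖star (q g - f g) * q g‖ ≤ (38 * δ) * 2 :=
      (norm_mul_le _ _).trans (mul_le_mul (by rw [norm_star]; exact hq g) (hqn g)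
        (norm_nonneg _) (by positivity))
    have h5 : ‖star (f g) * (q g - f g)‖ ≤ 2 * (38 * δ) :=
      (norm_mul_le _ _).trans (mul_le_mul (by rw [norm_star]; exact hf g) (hq g)
        (norm_nonneg _) (by positivity))
    have h6 : ‖(f g⁻¹ - star (f g)) * f g‖ ≤ δ * 2 :=
      (norm_mul_le _ _).trans (mul_le_mul (h2 g) (hf g) (norm_nonneg _) (by positivity))
    have h7 := h1 g⁻¹ g
    have h8 : ‖a - p‖ ≤ 9 * δ := by rw [norm_sub_rev]; exact hpa
    rw [h3]
    calc _ ≤ ‖star (q g - f g) * q g‖ + ‖star (f g) * (q g - f g)‖ +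
          ‖(f g⁻¹ - star (f g)) * f g‖ + ‖f (g⁻¹ * g) - f g⁻¹ * f g‖ + ‖a - p‖ :=
          (norm_add_le _ _).trans (add_le_add ((norm_sub_le _ _).trans (add_le_add
            ((norm_sub_le _ _).trans (add_le_add (norm_add_le _ _) le_rfl)) le_rfl)) le_rfl)
      _ ≤ _ := by linarith
  have hqs2 : ∀ g, ‖q g * star (q g) - p‖ ≤ 164 * δ := by
    intro g
    have h3 : q g * star (q g) - p = q g * star (q g - f g) + (q g - f g) * star (f g)
        - f g * (f g⁻¹ - star (f g)) - (f (g * g⁻¹) - f g * f g⁻¹) + (a - p) := by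
      rw [mul_inv_cancel, star_sub]; noncomm_ring
    have h4 : ‖q g * star (q g - f g)‖ ≤ 2 * (38 * δ) :=
      (norm_mul_le _ _).trans (mul_le_mul (hqn g) (by rw [norm_star]; exact hq g)
        (norm_nonneg _) (by positivity))
    have h5 : ‖(q g - f g) * star (f g)‖ ≤ (38 * δ) * 2 :=
      (norm_mul_le _ _).trans (mul_le_mul (hq g) (by rw [norm_star]; exact hf g)
        (norm_nonneg _) (by positivity))
    have h6 : ‖f g * (f g⁻¹ - star (f g))‖ ≤ 2 * δ :=
      (norm_mul_le _ _).trans (mul_le_mul (hf g) (h2 g) (norm_nonneg _) (by positivity))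
    have h7 := h1 g g⁻¹
    have h8 : ‖a - p‖ ≤ 9 * δ := by rw [norm_sub_rev]; exact hpa
    rw [h3]
    calc _ ≤ ‖q g * star (q g - f g)‖ + ‖(q g - f g) * star (f g)‖ +
          ‖f g * (f g⁻¹ - star (f g))‖ + ‖f (g * g⁻¹) - f g * f g⁻¹‖ + ‖a - p‖ :=
          (norm_add_le _ _).trans (add_le_add ((norm_sub_le _ _).trans (add_le_add
            ((norm_sub_le _ _).trans (add_le_add (norm_add_le _ _) le_rfl)) le_rfl)) le_rfl)
      _ ≤ _ := by linarith
  have hqm : ∀ g h, ‖q (g * h) - q g * q h‖ ≤ 191 * δ := by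
    intro g h
    have h3 : q (g * h) - q g * q h = (q (g * h) - f (g * h)) + (f (g * h) - f g * f h)
        - ((q g - f g) * f h + q g * (q h - f h)) := by noncomm_ring
    have h4 : ‖(q g - f g) * f h‖ ≤ (38 * δ) * 2 :=
      (norm_mul_le _ _).trans (mul_le_mul (hq g) (hf h) (norm_nonneg _) (by positivity))
    have h5 : ‖q g * (q h - f h)‖ ≤ 2 * (38 * δ) :=
      (norm_mul_le _ _).trans (mul_le_mul (hqn g) (hq h) (norm_nonneg _) (by positivity))
    rw [h3]
    calc _ ≤ ‖q (g * h) - f (g * h)‖ + ‖f (g * h) - f g * f h‖ +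
          (‖(q g - f g) * f h‖ + ‖q g * (q h - f h)‖) :=
          (norm_sub_le _ _).trans (add_le_add (norm_add_le _ _) (norm_add_le _ _))
      _ ≤ _ := by linarith [hq (g * h), h1 g h]
  -- the corner
  obtain ⟨D, iD, j, hj, hj1, hjs⟩ := exists_corner hp
  have hqr : ∀ g, ∃ d, j d = q g := fun g => hjs (q g)
    (by simp only [q]; rw [← mul_assoc, ← mul_assoc, hpp])
    (by simp only [q]; rw [mul_assoc, hpp])
  choose d hd using hqr
  have hη : 164 * δ ≤ 1 / 2 := by linarith
  have hds1 : ∀ g, ‖star (d g) * d g - 1‖ ≤ 164 * δ := by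
    intro g
    rw [← hj, map_sub, map_mul, map_star, hd, hj1]
    exact hqs1 g
  have hds2 : ∀ g, ‖d g * star (d g) - 1‖ ≤ 164 * δ := by
    intro g
    rw [← hj, map_sub, map_mul, map_star, hd, hj1]
    exact hqs2 g
  choose u huu hud using fun g => exists_unitary_near hη (hds1 g) (hds2 g)
  have hun : ∀ g, ‖u g‖ ≤ 1 := fun g => norm_unitary_le_one ⟨u g, huu g⟩
  have hdn : ∀ g, ‖d g‖ ≤ 2 := fun g => by rw [← hj, hd]; exact hqn g
  have hum : ∀ g h, ‖u (g * h) - u g * u h‖ ≤ 1503 * δ := by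
    intro g h
    have h3 : u (g * h) - u g * u h = (u (g * h) - d (g * h)) + (d (g * h) - d g * d h)
        - ((u g - d g) * d h + u g * (u h - d h)) := by noncomm_ring
    have h4 : ‖(u g - d g) * d h‖ ≤ (2 * (164 * δ)) * 2 :=
      (norm_mul_le _ _).trans (mul_le_mul (hud g) (hdn h) (norm_nonneg _) (by positivity))
    have h5 : ‖u g * (u h - d h)‖ ≤ 1 * (2 * (164 * δ)) :=
      (norm_mul_le _ _).trans (mul_le_mul (hun g) (hud h) (norm_nonneg _) (by positivity))
    have h6 : ‖d (g * h) - d g * d h‖ ≤ 191 * δ := by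
      rw [← hj, map_sub, map_mul, hd, hd, hd]
      exact hqm g h
    rw [h3]
    calc _ ≤ ‖u (g * h) - d (g * h)‖ + ‖d (g * h) - d g * d h‖ +
          (‖(u g - d g) * d h‖ + ‖u g * (u h - d h)‖) :=
          (norm_sub_le _ _).trans (add_le_add (norm_add_le _ _) (norm_add_le _ _))
      _ ≤ _ := by linarith [hud (g * h)]
  obtain ⟨v, hv1, hv2, hv3⟩ := exists_rep_near_unitary (K := K) (by linarith) huu hum
  refine ⟨fun g => j (v g), ⟨fun g h => ?_, fun g => ?_⟩, fun g => ?_⟩
  · rw [hv2, map_mul]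
  · rw [← map_star]
    congr 1
    have h3 : v 1 = 1 := by
      have h4 := hv2 1 1
      rw [mul_one] at h4
      have h5 := (Unitary.mem_iff.1 (hv1 1)).1
      calc v 1 = (star (v 1) * v 1) * v 1 := by rw [h5, one_mul]
        _ = star (v 1) * (v 1 * v 1) := mul_assoc _ _ _
        _ = star (v 1) * v 1 := by rw [← h4]
        _ = 1 := h5
    have h4 : v g⁻¹ * v g = 1 := by rw [← hv2, inv_mul_cancel, h3]
    have h5 : v g * star (v g) = 1 := (Unitary.mem_iff.1 (hv1 g)).2
    exact left_inv_eq_right_inv h4 h5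
  · have h3 : j (v g) - f g = j (v g - u g) + j (u g - d g) + (q g - f g) := by
      rw [map_sub, map_sub, hd]; abel
    rw [h3]
    calc _ ≤ ‖j (v g - u g)‖ + ‖j (u g - d g)‖ + ‖q g - f g‖ :=
          (norm_add_le _ _).trans (add_le_add (norm_add_le _ _) le_rfl)
      _ ≤ 4 * (1503 * δ) + 2 * (164 * δ) + 38 * δ := by
          rw [hj, hj]
          exact add_le_add (add_le_add (hv3 g) (hud g)) (hq g)
      _ ≤ _ := by linarith

end main

end Pool.Agent.helper27.Stab
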