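import Mathlib
import Pool.Agent.helper27.FinStab

/-!
# Weak semiprojectivity of the full group C*-algebra and lifting of representations
-/

open Filter Topology Set
open scoped ENNReal

noncomputable section

namespace Pool.Agent.helper27.Stab

universe u

lemma IsRep.norm_le_one {G : Type*} [Group G] {B : Type*} [NonUnitalCStarAlgebra B] {π : G → B}
    (hπ : IsRep π) (g : G) : ‖π g‖ ≤ 1 := by
  have h1 : ‖π 1‖ ≤ 1 := by
    apply norm_proj_le
    exact ⟨hπ.one_mul 1, hπ.star_one⟩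
  have h2 := CStarRing.norm_star_mul_self (x := π g)
  rw [← hπ.inv, ← hπ.mul, inv_mul_cancel] at h2
  by_contra h3
  push Not at h3
  nlinarith

/-- Representations of `G` in `∏ B n / ⊕ B n` lift to `∏ B n`. -/
def RepLifts (G : Type*) [Group G] (B : ℕ → Type u) [∀ n, NonUnitalCStarAlgebra (B n)] : Prop :=
  ∀ π : G → SeqQuot B, IsRep π → ∃ ρ : G → BddSeq B, IsRep ρ ∧ ∀ g, mk (ρ g) = π g

/-- `*`-homomorphisms of `A` into `∏ B n / ⊕ B n` lift to `∏ B n`. -/
def HomLifts (A : Type u) [NonUnitalCStarAlgebra A] (B : ℕ → Type u)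
    [∀ n, NonUnitalCStarAlgebra (B n)] : Prop :=
  ∀ φ : A →⋆ₙₐ[ℂ] SeqQuot B, ∃ ψ : A →⋆ₙₐ[ℂ] BddSeq B, ∀ a, mk (ψ a) = φ a

variable {G : Type*} [Group G] {A : Type u} [CStarAlgebra A] {ι : G →* unitary A}

theorem homLifts_of_repLifts (hA : IsFullGroupCStar G A ι) {B : ℕ → Type u}
    [∀ n, NonUnitalCStarAlgebra (B n)] (h : RepLifts G B) : HomLifts A B := by
  intro φ
  obtain ⟨ρ, hρ, hρ'⟩ := h (fun g => φ (ι g : A)) ⟨fun g h => by rw [map_mul, Submonoid.coe_mul, map_mul],
    fun g => by rw [map_inv, ← Unitary.star_eq_inv, Unitary.coe_star, map_star]⟩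
  obtain ⟨ψ, hψ⟩ := lift_rep hA hρ
  refine ⟨ψ, fun a => ?_⟩
  have hc1 : Continuous ((mkHom B).comp ψ) := AddMonoidHomClass.continuous_of_bound _ 1 (fun a => by
    rw [one_mul]; exact NonUnitalStarAlgHom.norm_apply_le _ a)
  have hc2 : Continuous φ := AddMonoidHomClass.continuous_of_bound φ 1 (fun a => by
    rw [one_mul]; exact NonUnitalStarAlgHom.norm_apply_le φ a)
  refine hA.dense_span.induction (P := fun a => mk (ψ a) = φ a) ?_ ?_ a
  · intro x hx
    induction hx using Submodule.span_induction with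
    | mem x hx =>
      obtain ⟨g, rfl⟩ := hx
      change mk (ψ (ι g : A)) = φ (ι g : A)
      rw [hψ, hρ']
    | zero => rw [map_zero, map_zero, mk_zero]
    | add x y _ _ hx hy => rw [map_add, map_add, mk_add, hx, hy]
    | smul c x _ hx => rw [map_smul, map_smul, mk_smul, hx]
  · exact isClosed_eq hc1 hc2

theorem repLifts_of_homLifts {G : Type*} [Group G] {A : Type u} [CStarAlgebra A]
    {ι : G →* unitary A} (hA : IsFullGroupCStar G A ι) {B : ℕ → Type u}
    [∀ n, NonUnitalCStarAlgebra (B n)] (h : HomLifts A B) : RepLifts G B := by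
  intro π hπ
  obtain ⟨φ, hφ⟩ := lift_rep hA hπ
  obtain ⟨ψ, hψ⟩ := h φ
  refine ⟨fun g => ψ (ι g : A), ⟨fun g h => ?_, fun g => ?_⟩, fun g => ?_⟩
  · rw [map_mul, Submonoid.coe_mul, map_mul]
  · rw [map_inv, ← Unitary.star_eq_inv, Unitary.coe_star, map_star]
  · rw [hψ, hφ]

/-- Groups that are unions of finite retracts have the lifting property. -/
theorem repLifts_of_retracts {G : Type*} [Group G] (r : ℕ → G →* G)
    (hfin : ∀ m, Finite (r m).range) (hev : ∀ g, ∀ᶠ m in atTop, r m g = g) (B : ℕ → Type u)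
    [∀ n, NonUnitalCStarAlgebra (B n)] : RepLifts G B := by
  intro π hπ
  choose φ hφ using fun g => mk_surjective (π g)
  -- asymptotic multiplicativity
  have hmul : ∀ g h, Tendsto (fun n => ‖coord (φ (g * h)) n - coord (φ g) n * coord (φ h) n‖) atTop (𝓝 0) := by
    intro g h
    have h1 : mk (φ (g * h)) = mk (φ g * φ h) := by rw [mk_mul, hφ, hφ, hφ, hπ.mul]
    rw [mk_eq, mem_nullSeq] at h1
    refine h1.congr fun n => ?_
    rw [coord_sub, coord_mul]
  have hinv : ∀ g, Tendsto (fun n => ‖coord (φ g⁻¹) n - star (coord (φ g) n)‖) atTop (𝓝 0) := by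
    intro g
    have h1 : mk (φ g⁻¹) = mk (star (φ g)) := by rw [mk_star, hφ, hφ, hπ.inv]
    rw [mk_eq, mem_nullSeq] at h1
    refine h1.congr fun n => ?_
    rw [coord_sub, coord_star]
  let ε : ℕ → ℝ := fun m => 1 / (100000 * ((m : ℝ) + 1))
  have hε0 : ∀ m, 0 < ε m := fun m => by positivity
  let P : ℕ → ℕ → Prop := fun n m => (∀ g ∈ (r m).range, ∀ h ∈ (r m).range,
    ‖coord (φ (g * h)) n - coord (φ g) n * coord (φ h) n‖ ≤ ε m) ∧ ∀ g ∈ (r m).range, ‖coord (φ g⁻¹) n - star (coord (φ g) n)‖ ≤ ε m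
  have hP : ∀ m, ∀ᶠ n in atTop, P n m := by
    intro m
    have hf : ((r m).range : Set G).Finite := Set.toFinite _
    apply Filter.Eventually.and
    · have h1 : ∀ᶠ n in atTop, ∀ x ∈ ((r m).range : Set G) ×ˢ ((r m).range : Set G),
          ‖coord (φ (x.1 * x.2)) n - coord (φ x.1) n * coord (φ x.2) n‖ ≤ ε m := by
        rw [Filter.eventually_all_finite (hf.prod hf)]
        intro x _
        exact (hmul x.1 x.2).eventually (eventually_le_nhds (hε0 m))
      filter_upwards [h1] with n hn g hg h hh using hn (g, h) ⟨hg, hh⟩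
    · have h1 : ∀ᶠ n in atTop, ∀ x ∈ ((r m).range : Set G), ‖coord (φ x⁻¹) n - star (coord (φ x) n)‖ ≤ ε m := by
        rw [Filter.eventually_all_finite hf]
        intro x _
        exact (hinv x).eventually (eventually_le_nhds (hε0 m))
      exact h1
  classical
  let M : ℕ → ℕ := fun n => Nat.findGreatest (P n) n
  have hM : ∀ m, ∀ᶠ n in atTop, m ≤ M n := by
    intro m
    filter_upwards [hP m, eventually_ge_atTop m] with n h1 h2
    exact Nat.le_findGreatest h2 h1
  have hMP : ∀ n, M n ≠ 0 → P n (M n) := fun n h => Nat.findGreatest_of_ne_zero rfl h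
  have hex : ∀ n, ∃ Ψ : G → B n, IsRep Ψ ∧ (P n (M n) → ∀ g, r (M n) g = g →
      ‖Ψ g - coord (φ g) n‖ ≤ 6400 * ε (M n)) := by
    intro n
    by_cases hn : P n (M n)
    · have hε1 : ε (M n) ≤ 1 / 100000 := by
        apply one_div_le_one_div_of_le (by norm_num)
        have : (0 : ℝ) ≤ (M n : ℝ) := by positivity
        linarith
      have := hfin (M n)
      obtain ⟨ρ, hρ, hρ'⟩ := exists_rep_near (K := (r (M n)).range) hε1
        (f := fun g => coord (φ (g : G)) n) (fun g h => hn.1 g g.2 h h.2) (fun g => hn.2 g g.2)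
      refine ⟨fun g => ρ ⟨r (M n) g, g, rfl⟩, ⟨fun g h => ?_, fun g => ?_⟩, fun _ g hg => ?_⟩
      · rw [← hρ.mul]
        congr 1
        exact Subtype.ext (map_mul _ _ _)
      · rw [← hρ.inv]
        congr 1
        exact Subtype.ext (map_inv _ _)
      · have h1 := hρ' ⟨r (M n) g, g, rfl⟩
        simp only [hg] at h1 ⊢
        exact h1
    · exact ⟨fun _ => 0, ⟨fun _ _ => by simp, fun _ => by simp⟩, fun h => absurd h hn⟩
  choose Ψ hΨ hΨ' using hex
  have hbd : ∀ g, ∃ C, ∀ n, ‖Ψ n g‖ ≤ C := fun g => ⟨1, fun n => (hΨ n).norm_le_one g⟩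
  refine ⟨fun g => ofFun (fun n => Ψ n g) (hbd g), ⟨fun g h => ?_, fun g => ?_⟩, fun g => ?_⟩
  · apply BddSeq.ext
    intro n
    rw [coord_mul]
    exact (hΨ n).mul g h
  · apply BddSeq.ext
    intro n
    rw [coord_star]
    exact (hΨ n).inv g
  · rw [← hφ g, mk_eq, mem_nullSeq, Metric.tendsto_atTop]
    intro η hη
    obtain ⟨m0, hm0⟩ := eventually_atTop.1 (hev g)
    obtain ⟨m1, hm1⟩ := exists_nat_gt (1 / η)
    obtain ⟨N, hN⟩ := eventually_atTop.1 (hM (max (max m0 m1) 1))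
    refine ⟨N, fun n hn => ?_⟩
    have h1 := hN n hn
    have h2 : m0 ≤ M n := (le_max_left m0 m1).trans ((le_max_left _ 1).trans h1)
    have h3 : m1 ≤ M n := (le_max_right m0 m1).trans ((le_max_left _ 1).trans h1)
    have h4 : 1 ≤ M n := (le_max_right _ 1).trans h1
    have h5 := hΨ' n (hMP n (by omega)) g (hm0 _ h2)
    rw [Real.dist_0_eq_abs, abs_of_nonneg (norm_nonneg _), coord_sub, coord_ofFun]
    refine lt_of_le_of_lt h5 ?_
    have h6 : (m1 : ℝ) ≤ M n := by exact_mod_cast h3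
    have h7 : 1 / η < (M n : ℝ) + 1 := by linarith
    have h8 : 0 < (M n : ℝ) + 1 := by positivity
    have h9 : 1 < η * ((M n : ℝ) + 1) := by
      rw [div_lt_iff₀ hη] at h7
      linarith
    calc 6400 * (1 / (100000 * ((M n : ℝ) + 1))) ≤ 1 / ((M n : ℝ) + 1) := by
          rw [one_div, mul_inv, ← mul_assoc, one_div]
          have : (0 : ℝ) < ((M n : ℝ) + 1)⁻¹ := by positivity
          nlinarith
      _ < η := by rw [div_lt_iff₀ h8]; exact h9

end Pool.Agent.helper27.Stab
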