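import Mathlib

/-!
# The groups of the counterexample

`GG` is a countable, locally finite group, nilpotent of class two, given by a bilinear cocycle over
`ZMod 2`; `HH` is the subgroup of index two of the elements with `s = 0`.
-/

open Filter Topology Set

noncomputable section

namespace Pool.Agent.helper27.Stab

/-- The group `GG`.  As a set it is a product of `ZMod 2`-vector spaces. -/
@[ext] structure GG : Type where
  k : ZMod 2
  s : ZMod 2
  c : ℕ →₀ ZMod 2
  p : ℕ →₀ ZMod 2
  q : ℕ →₀ ZMod 2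
  z : ℕ →₀ ZMod 2
  y : ZMod 2

namespace GG

/-- The sum of the coordinates. -/
def tot : (ℕ →₀ ZMod 2) →+ ZMod 2 := Finsupp.liftAddHom fun _ => AddMonoidHom.id _

lemma tot_single (i : ℕ) (a : ZMod 2) : tot (Finsupp.single i a) = a := by
  simp [tot]

instance : Mul GG where
  mul x x' := ⟨x.k + x'.k, x.s + x'.s, x.c + x'.c, x.p + x'.p, x.q + x'.q,
    x.z + x'.z + x'.k • x.c + x.p * x'.q, x.y + x'.y + tot x.c * x'.s⟩

instance : One GG where
  one := ⟨0, 0, 0, 0, 0, 0, 0⟩

instance : Inv GG where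
  inv x := ⟨-x.k, -x.s, -x.c, -x.p, -x.q, -x.z + x.k • x.c + x.p * x.q, -x.y + tot x.c * x.s⟩

@[simp] lemma mul_k (x y : GG) : (x * y).k = x.k + y.k := rfl
@[simp] lemma mul_s (x y : GG) : (x * y).s = x.s + y.s := rfl
@[simp] lemma mul_c (x y : GG) : (x * y).c = x.c + y.c := rfl
@[simp] lemma mul_p (x y : GG) : (x * y).p = x.p + y.p := rfl
@[simp] lemma mul_q (x y : GG) : (x * y).q = x.q + y.q := rfl
@[simp] lemma mul_z (x y : GG) : (x * y).z = x.z + y.z + y.k • x.c + x.p * y.q := rfl
@[simp] lemma mul_y (x y : GG) : (x * y).y = x.y + y.y + tot x.c * y.s := rfl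
@[simp] lemma one_k : (1 : GG).k = 0 := rfl
@[simp] lemma one_s : (1 : GG).s = 0 := rfl
@[simp] lemma one_c : (1 : GG).c = 0 := rfl
@[simp] lemma one_p : (1 : GG).p = 0 := rfl
@[simp] lemma one_q : (1 : GG).q = 0 := rfl
@[simp] lemma one_z : (1 : GG).z = 0 := rfl
@[simp] lemma one_y : (1 : GG).y = 0 := rfl
@[simp] lemma inv_k (x : GG) : x⁻¹.k = -x.k := rfl
@[simp] lemma inv_s (x : GG) : x⁻¹.s = -x.s := rfl
@[simp] lemma inv_c (x : GG) : x⁻¹.c = -x.c := rfl
@[simp] lemma inv_p (x : GG) : x⁻¹.p = -x.p := rfl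
@[simp] lemma inv_q (x : GG) : x⁻¹.q = -x.q := rfl
@[simp] lemma inv_z (x : GG) : x⁻¹.z = -x.z + x.k • x.c + x.p * x.q := rfl
@[simp] lemma inv_y (x : GG) : x⁻¹.y = -x.y + tot x.c * x.s := rfl

instance : Group GG := Group.ofLeftAxioms
  (by
    intro a b c
    apply GG.ext
    · simp [add_assoc]
    · simp [add_assoc]
    · simp [add_assoc]
    · simp [add_assoc]
    · simp [add_assoc]
    · ext i
      simp
      ring
    · simp
      ring)
  (by
    intro a
    apply GG.ext <;> simp)
  (by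
    intro a
    apply GG.ext
    · exact neg_add_cancel _
    · exact neg_add_cancel _
    · exact neg_add_cancel _
    · exact neg_add_cancel _
    · exact neg_add_cancel _
    · ext i
      simp
      have := CharTwo.add_self_eq_zero (a.z i + a.k * a.c i + a.p i * a.q i)
      linear_combination this
    · simp
      have := CharTwo.add_self_eq_zero (a.y + tot a.c * a.s)
      linear_combination this)

instance : Countable GG := by
  have : Function.Injective (fun x : GG => (x.k, x.s, x.c, x.p, x.q, x.z, x.y)) := by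
    intro x x' h
    simp only [Prod.mk.injEq] at h
    obtain ⟨h1, h2, h3, h4, h5, h6, h7⟩ := h
    exact GG.ext h1 h2 h3 h4 h5 h6 h7
  exact this.countable

/-- The homomorphism `x ↦ x.s`. -/
def sHom : GG →* Multiplicative (ZMod 2) where
  toFun x := Multiplicative.ofAdd x.s
  map_one' := rfl
  map_mul' _ _ := rfl

end GG

/-- The subgroup of index two. -/
def HH : Subgroup GG := GG.sHom.ker

lemma mem_HH {x : GG} : x ∈ HH ↔ x.s = 0 := Iff.rfl

lemma index_HH : HH.index = 2 := by
  rw [HH, Subgroup.index_ker]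
  have : GG.sHom.range = ⊤ := by
    rw [MonoidHom.range_eq_top]
    intro a
    exact ⟨⟨0, Multiplicative.toAdd a, 0, 0, 0, 0, 0⟩, rfl⟩
  rw [this]
  simp

namespace HH

/-- Truncation. -/
def tr (m : ℕ) : (ℕ →₀ ZMod 2) →+ (ℕ →₀ ZMod 2) := Finsupp.filterAddHom (· < m)

lemma tr_apply (m : ℕ) (f : ℕ →₀ ZMod 2) (i : ℕ) : tr m f i = if i < m then f i else 0 := by
  simp only [tr, Finsupp.filterAddHom]
  change Finsupp.filter (· < m) f i = _
  rw [Finsupp.filter_apply]

/-- The retractions of `HH` onto its finite subgroups. -/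
def r (m : ℕ) : HH →* HH where
  toFun x := ⟨⟨x.1.k, 0, tr m x.1.c, tr m x.1.p, tr m x.1.q, tr m x.1.z, x.1.y⟩, rfl⟩
  map_one' := by
    apply Subtype.ext
    apply GG.ext <;> simp
  map_mul' x x' := by
    have h1 : x'.1.s = 0 := x'.2
    apply Subtype.ext
    apply GG.ext
    · simp
    · simp
    · simp
    · simp
    · simp
    · ext i
      simp only [Subgroup.coe_mul, GG.mul_z, map_add, Finsupp.add_apply, tr_apply,
        Finsupp.smul_apply, Finsupp.mul_apply, smul_eq_mul]
      split_ifs <;> simp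
    · simp [h1]

lemma r_eventually (g : HH) : ∀ᶠ m in atTop, r m g = g := by
  have key : ∀ f : ℕ →₀ ZMod 2, ∀ᶠ m in atTop, tr m f = f := by
    intro f
    filter_upwards [eventually_gt_atTop (f.support.sup id)] with m hm
    ext i
    rw [tr_apply]
    split_ifs with h
    · rfl
    · by_contra h1
      have h2 : i ∈ f.support := Finsupp.mem_support_iff.2 (Ne.symm h1)
      have h3 : i ≤ f.support.sup id := Finset.le_sup (f := id) h2
      omega
  have hs : g.1.s = 0 := g.2
  filter_upwards [key g.1.c, key g.1.p, key g.1.q, key g.1.z] with m h1 h2 h3 h4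
  apply Subtype.ext
  apply GG.ext
  · rfl
  · exact hs.symm
  · exact h1
  · exact h2
  · exact h3
  · exact h4
  · rfl

lemma finite_tr (m : ℕ) : (range (tr m)).Finite := by
  have h1 : Function.Injective (fun (f : range (tr m)) (i : Fin m) => f.1 i) := by
    rintro ⟨_, f, rfl⟩ ⟨_, f', rfl⟩ h
    apply Subtype.ext
    ext i
    by_cases hi : i < m
    · exact congrFun h ⟨i, hi⟩
    · simp [tr_apply, hi]
  have h2 : Finite (range (tr m)) := Finite.of_injective _ h1
  exact Set.toFinite _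

lemma finite_range (m : ℕ) : Finite (r m).range := by
  have hf := (finite_tr m)
  have : Finite (range (tr m)) := hf
  let F : (r m).range → ZMod 2 × range (tr m) × range (tr m) × range (tr m) × range (tr m) × ZMod 2 :=
    fun x => (x.1.1.k, ⟨x.1.1.c, by obtain ⟨w, hw⟩ := x.2; rw [← hw]; exact ⟨_, rfl⟩⟩,
      ⟨x.1.1.p, by obtain ⟨w, hw⟩ := x.2; rw [← hw]; exact ⟨_, rfl⟩⟩,
      ⟨x.1.1.q, by obtain ⟨w, hw⟩ := x.2; rw [← hw]; exact ⟨_, rfl⟩⟩,
      ⟨x.1.1.z, by obtain ⟨w, hw⟩ := x.2; rw [← hw]; exact ⟨_, rfl⟩⟩, x.1.1.y)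
  refine Finite.of_injective F ?_
  intro x x' h
  simp only [F, Prod.mk.injEq, Subtype.mk.injEq] at h
  obtain ⟨h1, h2, h3, h4, h5, h6⟩ := h
  apply Subtype.ext
  apply Subtype.ext
  have hs : x.1.1.s = x'.1.1.s := by
    have h7 : x.1.1.s = 0 := x.1.2
    have h8 : x'.1.1.s = 0 := x'.1.2
    rw [h7, h8]
  exact GG.ext h1 hs h2 h3 h4 h5 h6

end HH

end Pool.Agent.helper27.Stab
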