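import Mathlib
import Pool.Agent.helper27.StabDef
import Pool.Agent.helper27.StabGroup

/-!
# `GG` has no representations close to the given ones
-/

open Filter Topology Set
open scoped ENNReal

noncomputable section

namespace Pool.Agent.helper27.Stab

namespace GG

def K : GG := ⟨1, 0, 0, 0, 0, 0, 0⟩
def S : GG := ⟨0, 1, 0, 0, 0, 0, 0⟩
def W (i : ℕ) : GG := ⟨0, 0, Finsupp.single i 1, 0, 0, 0, 0⟩
def U (i : ℕ) : GG := ⟨0, 0, 0, Finsupp.single i 1, 0, 0, 0⟩
def V (i : ℕ) : GG := ⟨0, 0, 0, 0, Finsupp.single i 1, 0, 0⟩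
def E (i : ℕ) : GG := ⟨0, 0, 0, 0, 0, Finsupp.single i 1, 0⟩

lemma single_add_self (i : ℕ) : (Finsupp.single i 1 : ℕ →₀ ZMod 2) + Finsupp.single i 1 = 0 := by
  rw [← Finsupp.single_add, CharTwo.add_self_eq_zero, Finsupp.single_zero]

lemma single_mul_self (i : ℕ) :
    (Finsupp.single i 1 : ℕ →₀ ZMod 2) * Finsupp.single i 1 = Finsupp.single i 1 := by
  ext j
  rw [Finsupp.mul_apply]
  by_cases h : i = j
  · subst h; simp
  · simp [h]

lemma single_mul_ne {i j : ℕ} (hij : i ≠ j) :
    (Finsupp.single i 1 : ℕ →₀ ZMod 2) * Finsupp.single j 1 = 0 := by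
  ext l
  rw [Finsupp.mul_apply]
  by_cases h : i = l
  · subst h; simp [hij.symm]
  · simp [Finsupp.single_apply, h]

lemma K_sq : K * K = 1 := by
  apply GG.ext <;> simp [K]; exact CharTwo.add_self_eq_zero 1
lemma S_sq : S * S = 1 := by
  apply GG.ext <;> simp [S]; exact CharTwo.add_self_eq_zero 1
lemma E_sq (i : ℕ) : E i * E i = 1 := by
  apply GG.ext <;> simp [E, single_add_self]
lemma KS : K * S = S * K := by
  apply GG.ext <;> simp [S, K]
lemma WWS (i : ℕ) : W 0 * W i * S = S * (W 0 * W i) := by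
  apply GG.ext <;> simp [S, W, map_add, tot_single, CharTwo.add_self_eq_zero]
lemma WWK (i : ℕ) : W 0 * W i * K = K * E 0 * E i * (W 0 * W i) := by
  apply GG.ext <;> simp [W, K, E]
lemma VS (i : ℕ) : V i * S = S * V i := by
  apply GG.ext <;> simp [V, S]
lemma VU {i j : ℕ} (h : i ≠ j) : V j * U i = U i * V j := by
  apply GG.ext <;> simp [V, U, single_mul_ne h]
lemma VU_self (i : ℕ) : V i * U i = E i * U i * V i := by
  apply GG.ext <;> simp [V, U, E, single_mul_self, single_add_self]

end GG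

open GG

lemma proj_eq_zero {D : Type*} [CStarAlgebra D] {e : D} (h1 : e * e = e) (h2 : star e = e)
    (h3 : ‖e‖ < 1) : e = 0 := by
  have h4 := CStarRing.norm_star_mul_self (x := e)
  rw [h2, h1] at h4
  rw [← norm_eq_zero]
  by_contra h5
  have h6 : 0 < ‖e‖ := lt_of_le_of_ne (norm_nonneg _) (Ne.symm h5)
  nlinarith

theorem no_rep {D : Type*} [CStarAlgebra D] [FiniteDimensional ℂ D] {R : GG → D} (hR : IsRep R)
    (h1 : ‖R 1 - 1‖ < 1) (hE : ‖R (E 0) + 1‖ < 1) {S0 : D} (hS0 : S0 * S0 = 1) (hS1 : ‖S0‖ ≤ 1)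
    (hS2 : 1 ≤ ‖1 + S0‖) (hS : ‖R S - S0‖ ≤ 1 / 10) (hK : ‖R K - S0‖ ≤ 1 / 10) : False := by
  have hstar : ∀ g : GG, g * g = 1 → star (R g) = R g := by
    intro g hg
    rw [← hR.inv]
    congr 1
    exact inv_eq_of_mul_eq_one_left hg
  have hR1 : R 1 = 1 := by
    have h2 : 1 - R 1 = 0 := by
      apply proj_eq_zero
      · have : R 1 * R 1 = R 1 := by rw [← hR.mul, mul_one]
        rw [mul_sub, sub_mul, sub_mul, this, one_mul, one_mul, mul_one]
        abel
      · rw [star_sub, star_one, hR.star_one]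
      · rwa [norm_sub_rev]
    exact (sub_eq_zero.1 h2).symm
  have hsq : ∀ g : GG, g * g = 1 → R g * R g = 1 := by
    intro g hg
    rw [← hR.mul, hg, hR1]
  have hproj : ∀ x : D, x * x = 1 → ((1 / 2 : ℝ) • (1 + x)) * ((1 / 2 : ℝ) • (1 + x)) =
      (1 / 2 : ℝ) • (1 + x) := by
    intro x hx
    rw [smul_mul_smul_comm, mul_add, add_mul, add_mul, hx, one_mul, mul_one, one_mul]
    have : (1 + x + (x + 1) : D) = (2 : ℝ) • (1 + x) := by
      rw [two_smul]; abel
    rw [this, smul_smul]
    norm_num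
  have hE0 : R (E 0) = -1 := by
    have h2 : (1 / 2 : ℝ) • (1 + R (E 0)) = 0 := by
      apply proj_eq_zero
      · exact hproj _ (hsq _ (E_sq 0))
      · rw [star_smul, star_add, star_one, hstar _ (E_sq 0), star_trivial]
      · rw [norm_smul, add_comm]
        norm_num
        linarith
    have h3 : 1 + R (E 0) = 0 := (smul_eq_zero.1 h2).resolve_left (by norm_num)
    exact (eq_neg_of_add_eq_zero_right h3)
  obtain ⟨P, hP⟩ : ∃ P : D, P = (1 / 2 : ℝ) • (1 + R S) := ⟨_, rfl⟩
  have hPP : P * P = P := by rw [hP]; exact hproj _ (hsq _ S_sq)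
  have hPs : star P = P := by
    rw [hP, star_smul, star_add, star_one, hstar _ S_sq, star_trivial]
  have hPne : P ≠ 0 := by
    intro h0
    rw [hP] at h0
    have h3 : 1 + R S = 0 := (smul_eq_zero.1 h0).resolve_left (by norm_num)
    have h4 : 1 + S0 = (1 + R S) - (R S - S0) := by abel
    rw [h4, h3, zero_sub, norm_neg] at hS2
    linarith
  have hcomm : ∀ g : GG, g * S = S * g → P * R g = R g * P := by
    intro g hg
    rw [hP, smul_mul_assoc, mul_smul_comm, add_mul, mul_add, one_mul, mul_one, ← hR.mul,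
      ← hR.mul, hg]
  have hPK : P * R K = P := by
    have h2 : P * ((1 / 2 : ℝ) • (1 - R K)) = 0 := by
      have hk : ((1 / 2 : ℝ) • (1 - R K)) * ((1 / 2 : ℝ) • (1 - R K)) = (1 / 2 : ℝ) • (1 - R K) := by
        have := hproj (-R K) (by rw [neg_mul_neg]; exact hsq _ K_sq)
        simpa [sub_eq_add_neg] using this
      have hks : star ((1 / 2 : ℝ) • (1 - R K)) = (1 / 2 : ℝ) • (1 - R K) := by
        rw [star_smul, star_sub, star_one, hstar _ K_sq, star_trivial]
      have hkc : P * ((1 / 2 : ℝ) • (1 - R K)) = ((1 / 2 : ℝ) • (1 - R K)) * P := by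
        rw [mul_smul_comm, smul_mul_assoc, mul_sub, sub_mul, mul_one, one_mul, hcomm K KS]
      apply proj_eq_zero
      · calc _ = P * (((1 / 2 : ℝ) • (1 - R K)) * P) * ((1 / 2 : ℝ) • (1 - R K)) := by
              simp only [mul_assoc]
          _ = P * (P * ((1 / 2 : ℝ) • (1 - R K))) * ((1 / 2 : ℝ) • (1 - R K)) := by rw [hkc]
          _ = (P * P) * (((1 / 2 : ℝ) • (1 - R K)) * ((1 / 2 : ℝ) • (1 - R K))) := by
              simp only [mul_assoc]
          _ = _ := by rw [hPP, hk]
      · rw [star_mul, hks, hPs, hkc]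
      · have h3 : P * ((1 / 2 : ℝ) • (1 - R K)) = (1 / 4 : ℝ) • ((R S - S0) * (1 - R K) +
            (1 + S0) * (S0 - R K)) := by
          have h4 : (R S - S0) * (1 - R K) + (1 + S0) * (S0 - R K) = (1 + R S) * (1 - R K) := by
            have : (R S - S0) * (1 - R K) + (1 + S0) * (S0 - R K) =
              (1 + R S) * (1 - R K) + (S0 * S0 - 1) := by noncomm_ring
            rw [this, hS0, sub_self, add_zero]
          rw [h4, hP, smul_mul_smul_comm]
          norm_num
        have h5 : ‖1 - R K‖ ≤ 2 := by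
          calc _ ≤ ‖(1 : D)‖ + ‖R K‖ := norm_sub_le _ _
            _ ≤ 1 + 1 := add_le_add (norm_one_le_one D) (hR.norm_le_one K)
            _ = 2 := by norm_num
        have h6 : ‖1 + S0‖ ≤ 2 := by
          calc _ ≤ ‖(1 : D)‖ + ‖S0‖ := norm_add_le _ _
            _ ≤ 1 + 1 := add_le_add (norm_one_le_one D) hS1
            _ = 2 := by norm_num
        have h7 : ‖(R S - S0) * (1 - R K)‖ ≤ 1 / 10 * 2 :=
          (norm_mul_le _ _).trans (mul_le_mul hS h5 (norm_nonneg _) (by norm_num))
        have h8 : ‖(1 + S0) * (S0 - R K)‖ ≤ 2 * (1 / 10) :=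
          (norm_mul_le _ _).trans (mul_le_mul h6 (by rw [norm_sub_rev]; exact hK)
            (norm_nonneg _) (by norm_num))
        rw [h3, norm_smul]
        have h9 := norm_add_le ((R S - S0) * (1 - R K)) ((1 + S0) * (S0 - R K))
        norm_num
        linarith
    rw [mul_smul_comm] at h2
    have h3 : P * (1 - R K) = 0 := (smul_eq_zero.1 h2).resolve_left (by norm_num)
    rw [mul_sub, mul_one, sub_eq_zero] at h3
    exact h3.symm
  have hinvr : ∀ g : GG, R g * R g⁻¹ = 1 := fun g => by rw [← hR.mul, mul_inv_cancel, hR1]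
  have hPE : ∀ i, P * R (E i) = -P := by
    intro i
    set y := W 0 * W i with hy
    have h2 : P * R y = -(P * R (E i)) * R y := by
      calc P * R y = R y * P := hcomm y (WWS i)
        _ = R y * (P * R K) := by rw [hPK]
        _ = (R y * P) * R K := by rw [mul_assoc]
        _ = (P * R y) * R K := by rw [hcomm y (WWS i)]
        _ = P * R (y * K) := by rw [mul_assoc, hR.mul y K]
        _ = P * R (K * E 0 * E i * y) := by rw [hy, WWK i]
        _ = P * (R K * R (E 0) * R (E i) * R y) := by rw [hR.mul, hR.mul, hR.mul]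
        _ = (P * R K) * R (E 0) * R (E i) * R y := by simp only [mul_assoc]
        _ = -(P * R (E i)) * R y := by rw [hPK, hE0]; simp
    have h3 : P = -(P * R (E i)) := by
      calc P = P * R y * R y⁻¹ := by rw [mul_assoc, hinvr, mul_one]
        _ = -(P * R (E i)) * R y * R y⁻¹ := by rw [h2]
        _ = _ := by rw [mul_assoc _ (R y), hinvr, mul_one]
    rw [eq_neg_iff_add_eq_zero, add_comm] at h3
    exact eq_neg_of_add_eq_zero_left h3
  -- the linearly independent family
  let x : ℕ → D := fun i => P * R (U i)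
  have hx0 : ∀ i, x i ≠ 0 := by
    intro i h0
    apply hPne
    calc P = x i * R (U i)⁻¹ := by simp only [x]; rw [mul_assoc, hinvr, mul_one]
      _ = 0 := by rw [h0, zero_mul]
  have hC : ∀ j, ∃ C : D →ₗ[ℂ] D, C (x j) = - x j ∧ ∀ i, i ≠ j → C (x i) = x i := by
    intro j
    refine ⟨(LinearMap.mulRight ℂ (R (V j)⁻¹)).comp (LinearMap.mulLeft ℂ (R (V j))), ?_, ?_⟩
    · simp only [LinearMap.comp_apply, LinearMap.mulLeft_apply, LinearMap.mulRight_apply, x]
      calc R (V j) * (P * R (U j)) * R (V j)⁻¹ = (R (V j) * P) * (R (U j) * R (V j)⁻¹) := by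
            simp only [mul_assoc]
        _ = P * R (V j * U j) * R (V j)⁻¹ := by
            rw [← hcomm (V j) (VS j), hR.mul]; simp only [mul_assoc]
        _ = P * R (E j) * R (U j) * (R (V j) * R (V j)⁻¹) := by
            rw [VU_self, hR.mul, hR.mul]; simp only [mul_assoc]
        _ = _ := by rw [hPE, hinvr, mul_one, neg_mul]
    · intro i hij
      simp only [LinearMap.comp_apply, LinearMap.mulLeft_apply, LinearMap.mulRight_apply, x]
      calc R (V j) * (P * R (U i)) * R (V j)⁻¹ = (R (V j) * P) * (R (U i) * R (V j)⁻¹) := by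
            simp only [mul_assoc]
        _ = P * R (V j * U i) * R (V j)⁻¹ := by
            rw [← hcomm (V j) (VS j), hR.mul]; simp only [mul_assoc]
        _ = P * R (U i) * (R (V j) * R (V j)⁻¹) := by
            rw [VU hij, hR.mul]; simp only [mul_assoc]
        _ = _ := by rw [hinvr, mul_one]
  have hli : LinearIndependent ℂ x := by
    rw [linearIndependent_iff']
    intro s a hs j hj
    obtain ⟨C, hC1, hC2⟩ := hC j
    have h2 : ∑ i ∈ s, a i • C (x i) = 0 := by
      rw [← map_zero C, ← hs, map_sum]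
      simp only [map_smul]
    have h3 : ∑ i ∈ s, a i • (x i - C (x i)) = 0 := by
      simp only [smul_sub, Finset.sum_sub_distrib]
      rw [hs, h2, sub_zero]
    rw [Finset.sum_eq_single j] at h3
    · rw [hC1, sub_neg_eq_add, ← two_smul ℂ, smul_smul] at h3
      have h4 := (smul_eq_zero.1 h3).resolve_right (hx0 j)
      exact (mul_eq_zero.1 h4).resolve_right (by norm_num)
    · intro i _ hij
      rw [hC2 i hij, sub_self, smul_zero]
    · intro h; exact absurd hj h
  have hfin : Finite ℕ := hli.finite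
  exact not_finite ℕ

end Pool.Agent.helper27.Stab
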