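import Mathlib
import Pool.Agent.helper27.StabDef
import Pool.Agent.helper27.StabGroup

/-!
# The approximate representations of `GG` by monomial matrices
-/

open Filter Topology Set
open scoped ENNReal

noncomputable section

namespace Pool.Agent.helper27.Stab

section mono

variable {I : Type*} [Fintype I] [DecidableEq I]

set_option linter.unusedSectionVars false

/-- The monomial matrix of `μ` and `τ`. -/
def mono (μ : I → ℂ) (τ : Equiv.Perm I) : Matrix I I ℂ :=
  Matrix.of fun x y => if y = τ x then μ x else 0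

lemma mono_mul (μ μ' : I → ℂ) (τ τ' : Equiv.Perm I) :
    mono μ τ * mono μ' τ' = mono (fun x => μ x * μ' (τ x)) (τ.trans τ') := by
  ext x y
  rw [Matrix.mul_apply, Finset.sum_eq_single (τ x)]
  · simp only [mono, Matrix.of_apply, if_true]
    by_cases h : y = τ' (τ x)
    · have h' : y = (τ.trans τ') x := h
      rw [if_pos h, if_pos h']
    · have h' : ¬ y = (τ.trans τ') x := h
      rw [if_neg h, if_neg h', mul_zero]
  · intro z _ hz
    simp [mono, hz]
  · intro h; exact absurd (Finset.mem_univ _) h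

lemma mono_star (μ : I → ℂ) (τ : Equiv.Perm I) :
    star (mono μ τ) = mono (fun x => star (μ (τ.symm x))) τ.symm := by
  ext x y
  rw [Matrix.star_apply]
  simp only [mono, Matrix.of_apply]
  by_cases h : x = τ y
  · subst h
    simp
  · have h' : ¬ y = τ.symm x := by
      intro h1
      apply h
      rw [h1, Equiv.apply_symm_apply]
    simp [h, h']

lemma mono_one : mono (fun _ : I => (1 : ℂ)) (Equiv.refl I) = 1 := by
  ext x y
  simp only [mono, Matrix.of_apply, Matrix.one_apply, Equiv.refl_apply]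
  by_cases h : y = x
  · simp [h]
  · simp [h, Ne.symm h]

end mono

/-- The sign character of `ZMod 2`. -/
def sgn (a : ZMod 2) : ℂ := if a = 0 then 1 else -1

lemma sgn_zero : sgn 0 = 1 := by simp [sgn]

lemma sgn_one : sgn 1 = -1 := by simp [sgn]

lemma sgn_add (a b : ZMod 2) : sgn (a + b) = sgn a * sgn b := by
  have h : ∀ a : ZMod 2, a = 0 ∨ a = 1 := by decide
  have h1 : (1 : ZMod 2) + 1 = 0 := by decide
  rcases h a with rfl | rfl <;> rcases h b with rfl | rfl <;> simp [sgn, h1]

lemma sgn_mul_self (a : ZMod 2) : sgn a * sgn a = 1 := by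
  rw [← sgn_add, CharTwo.add_self_eq_zero, sgn_zero]

lemma star_sgn (a : ZMod 2) : star (sgn a) = sgn a := by
  unfold sgn; split_ifs <;> simp

/-- The index set. -/
abbrev Idx (m : ℕ) : Type := ZMod 2 × (Fin m → ZMod 2)

open GG

/-- The exponent of the sign. -/
def ex (m : ℕ) (x : GG) (v : Idx m) : ZMod 2 :=
  x.y + ∑ i : Fin m, x.z i + (x.k + x.s) * v.1 + ∑ i : Fin m, x.p i * (v.2 i + x.q i)

/-- The translation vector. -/
def sh (m : ℕ) (x : GG) : Idx m := (tot x.c, fun i => x.q i)

/-- The monomial matrix of `x`. -/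
def sig (m : ℕ) (x : GG) : Matrix (Idx m) (Idx m) ℂ :=
  mono (fun v => sgn (ex m x v)) (Equiv.addRight (sh m x))

lemma tot_eq_sum {m : ℕ} {f : ℕ →₀ ZMod 2} (hf : ∀ i, f i ≠ 0 → i < m) :
    tot f = ∑ i : Fin m, f i := by
  rw [tot, Finsupp.liftAddHom_apply, Finsupp.sum, ← Finset.sum_range (fun i => f i)]
  apply Finset.sum_subset
  · intro i hi
    exact Finset.mem_range.2 (hf i (Finsupp.mem_support_iff.1 hi))
  · intro i _ hi
    simpa using hi

lemma sig_mul {m : ℕ} (x x' : GG) (hx : ∀ i, x.c i ≠ 0 → i < m) :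
    sig m (x * x') = sig m x * sig m x' := by
  rw [sig, sig, sig, mono_mul]
  have h1 : Equiv.addRight (sh m (x * x')) =
      (Equiv.addRight (sh m x)).trans (Equiv.addRight (sh m x')) := by
    apply Equiv.ext
    intro v
    simp only [Equiv.coe_addRight, Equiv.trans_apply]
    have : sh m (x * x') = sh m x + sh m x' := by
      apply Prod.ext
      · simp [sh]
      · funext i; simp [sh]
    rw [this, add_assoc]
  rw [h1]
  congr 1
  funext v
  rw [← sgn_add]
  congr 1
  simp only [ex, Equiv.coe_addRight, sh, Prod.fst_add, Prod.snd_add, Pi.add_apply]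
  simp only [mul_k, mul_s, mul_p, mul_q, mul_z, mul_y, Finsupp.add_apply,
    Finsupp.smul_apply, Finsupp.mul_apply, smul_eq_mul]
  simp only [Finset.sum_add_distrib, add_mul, mul_add, ← Finset.mul_sum]
  rw [← tot_eq_sum hx]
  have h3 := CharTwo.add_self_eq_zero (∑ i : Fin m, x.p i * x'.q i)
  linear_combination h3

lemma sig_one (m : ℕ) : sig m 1 = 1 := by
  rw [sig, ← mono_one]
  have h1 : Equiv.addRight (sh m 1) = Equiv.refl (Idx m) := by
    apply Equiv.ext
    intro v
    have : sh m 1 = 0 := by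
      apply Prod.ext
      · simp [sh]
      · funext i; simp [sh]
    simp [this]
  rw [h1]
  congr 1
  funext v
  simp [ex, sgn_zero]

lemma sig_unitary (m : ℕ) (x : GG) : star (sig m x) * sig m x = 1 := by
  rw [sig, mono_star, mono_mul, ← mono_one]
  congr 1
  · funext v
    rw [star_sgn, sgn_mul_self]
  · exact Equiv.symm_trans_self _

lemma sig_inv {m : ℕ} (x : GG) (hx : ∀ i, x.c i ≠ 0 → i < m) :
    sig m x⁻¹ = star (sig m x) := by
  have h1 : sig m x * sig m x⁻¹ = 1 := by rw [← sig_mul x x⁻¹ hx, mul_inv_cancel, sig_one]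
  exact (left_inv_eq_right_inv (sig_unitary m x) h1).symm

/-- The number of indices. -/
def dimn (m : ℕ) : ℕ := Fintype.card (Idx m)

/-- An enumeration of the indices. -/
def eqv (m : ℕ) : Fin (dimn m) ≃ Idx m := (Fintype.equivFin (Idx m)).symm

/-- The operators of the approximate representation. -/
def rep (m : ℕ) (x : GG) :
    EuclideanSpace ℂ (Fin (dimn m)) →L[ℂ] EuclideanSpace ℂ (Fin (dimn m)) :=
  Matrix.toEuclideanCLM (𝕜 := ℂ)
    ((sig m x).submatrix (eqv m) (eqv m))

lemma rep_mul {m : ℕ} (x x' : GG) (hx : ∀ i, x.c i ≠ 0 → i < m) :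
    rep m (x * x') = rep m x * rep m x' := by
  rw [rep, rep, rep, ← map_mul, Matrix.submatrix_mul_equiv, sig_mul x x' hx]

lemma rep_one (m : ℕ) : rep m 1 = 1 := by
  rw [rep, sig_one, Matrix.submatrix_one_equiv, map_one]

lemma rep_star (m : ℕ) (x : GG) : star (rep m x) = Matrix.toEuclideanCLM (𝕜 := ℂ)
    ((star (sig m x)).submatrix (eqv m) (eqv m)) := by
  rw [rep, ← map_star]
  rfl

lemma rep_unitary (m : ℕ) (x : GG) : star (rep m x) * rep m x = 1 := by
  rw [rep_star, rep, ← map_mul, Matrix.submatrix_mul_equiv, sig_unitary,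
    Matrix.submatrix_one_equiv, map_one]

lemma rep_inv {m : ℕ} (x : GG) (hx : ∀ i, x.c i ≠ 0 → i < m) :
    rep m x⁻¹ = star (rep m x) := by
  rw [rep_star, rep, sig_inv x hx]

lemma norm_rep_le (m : ℕ) (x : GG) : ‖rep m x‖ ≤ 1 := by
  have h := CStarRing.norm_star_mul_self (x := rep m x)
  rw [rep_unitary] at h
  have h1 := norm_one_le_one (EuclideanSpace ℂ (Fin (dimn m)) →L[ℂ] EuclideanSpace ℂ (Fin (dimn m)))
  by_contra hc
  push Not at hc
  nlinarith

end Pool.Agent.helper27.Stab
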