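import Mathlib

set_option autoImplicit false

open ComplexConjugate

namespace Pool.Agent.helper27.Expsum

/-- van der Corput identity. -/
lemma norm_sq_sum {G : Type*} [AddCommGroup G] [Fintype G] (u : G → ℂ) :
    ((‖∑ x, u x‖ ^ 2 : ℝ) : ℂ) = ∑ h, ∑ y, u (y + h) * conj (u y) := by
  rw [Finset.sum_comm]
  have h1 : ∀ y, ∑ h, u (y + h) * conj (u y) = (∑ x, u x) * conj (u y) := by
    intro y
    rw [← Finset.sum_mul]
    congr 1
    exact Fintype.sum_equiv (Equiv.addLeft y) _ _ (fun x => by simp)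
  simp_rw [h1]
  rw [← Finset.mul_sum, ← map_sum, Complex.mul_conj, Complex.normSq_eq_norm_sq]

lemma norm_sq_sum_le {G : Type*} [AddCommGroup G] [Fintype G] (u : G → ℂ) :
    ‖∑ x, u x‖ ^ 2 ≤ ∑ h, ‖∑ y, u (y + h) * conj (u y)‖ := by
  have h := norm_sq_sum u
  have h2 : ‖((‖∑ x, u x‖ ^ 2 : ℝ) : ℂ)‖ = ‖∑ x, u x‖ ^ 2 := by
    rw [Complex.norm_real, Real.norm_of_nonneg (by positivity)]
  rw [← h2, h]
  exact norm_sum_le _ _

variable {F : Type*} [Field F] [Fintype F]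

lemma sum_char_mul [DecidableEq F] {ψ : AddChar F ℂ} (hψ : ψ.IsPrimitive) (a : F) :
    ∑ x, ψ (a * x) = if a = 0 then (Fintype.card F : ℂ) else 0 := by
  have := AddChar.sum_mulShift a hψ
  simpa [mul_comm] using this

lemma conj_char (ψ : AddChar F ℂ) (x : F) : conj (ψ x) = ψ (-x) :=
  (AddChar.map_neg_eq_conj ψ x).symm

lemma norm_char (ψ : AddChar F ℂ) (x : F) : ‖ψ x‖ = 1 := AddChar.norm_apply ψ x

/-- Gauss sums. -/
lemma gauss {ψ : AddChar F ℂ} (hψ : ψ.IsPrimitive) (h2 : (2 : F) ≠ 0) {c : F} (hc : c ≠ 0)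
    (χ : AddChar F ℂ) : ‖∑ x, ψ (c * x ^ 2) * χ x‖ ^ 2 ≤ Fintype.card F := by
  classical
  refine (norm_sq_sum_le _).trans ?_
  have h1 : ∀ h : F, ‖∑ y, (ψ (c * (y + h) ^ 2) * χ (y + h)) * conj (ψ (c * y ^ 2) * χ y)‖ =
      if h = 0 then (Fintype.card F : ℝ) else 0 := by
    intro h
    have e : ∀ y, (ψ (c * (y + h) ^ 2) * χ (y + h)) * conj (ψ (c * y ^ 2) * χ y) =
        (ψ (c * h ^ 2) * χ h) * ψ ((2 * c * h) * y) := by
      intro y
      have e1 : c * (y + h) ^ 2 = c * y ^ 2 + ((2 * c * h) * y + c * h ^ 2) := by ring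
      have e2 : ψ (c * y ^ 2) * conj (ψ (c * y ^ 2)) = 1 := by
        rw [Complex.mul_conj, Complex.normSq_eq_norm_sq, norm_char]; simp
      have e3 : χ y * conj (χ y) = 1 := by
        rw [Complex.mul_conj, Complex.normSq_eq_norm_sq, norm_char]; simp
      rw [e1, AddChar.map_add_eq_mul, AddChar.map_add_eq_mul, AddChar.map_add_eq_mul,
        map_mul (starRingEnd ℂ)]
      linear_combination (ψ (c * h ^ 2) * χ h * ψ ((2 * c * h) * y)) * (χ y * conj (χ y)) * e2 +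
        (ψ (c * h ^ 2) * χ h * ψ ((2 * c * h) * y)) * e3
    simp_rw [e]
    rw [← Finset.mul_sum, norm_mul, norm_mul, norm_char, norm_char, sum_char_mul hψ]
    by_cases hh : h = 0
    · simp [hh]
    · have : 2 * c * h ≠ 0 := mul_ne_zero (mul_ne_zero h2 hc) hh
      simp [hh, this]
  rw [Finset.sum_congr rfl (fun h _ => h1 h)]
  simp

/-- A quadratic phase. -/
def Quad (f : F → ℂ) : Prop :=
  ∀ h : F, ∃ (χ : AddChar F ℂ) (c : ℂ), ‖c‖ ≤ 1 ∧ ∀ y, f (y + h) * conj (f y) = c * χ y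

/-- Cubic Weyl sums twisted by quadratic phases. -/
lemma cubic {ψ : AddChar F ℂ} (hψ : ψ.IsPrimitive) (h2 : (2 : F) ≠ 0) (h3 : (3 : F) ≠ 0)
    {f : F → ℂ} (hf : Quad f) :
    ‖∑ x, ψ (x ^ 3) * f x‖ ^ 2 ≤ Fintype.card F + Fintype.card F * √(Fintype.card F) := by
  classical
  refine (norm_sq_sum_le _).trans ?_
  have h1 : ∀ h : F, ‖∑ y, (ψ ((y + h) ^ 3) * f (y + h)) * conj (ψ (y ^ 3) * f y)‖ ≤
      (if h = 0 then (Fintype.card F : ℝ) else 0) + √(Fintype.card F) := by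
    intro h
    obtain ⟨χ, c, hc, hχ⟩ := hf h
    have e : ∀ y, (ψ ((y + h) ^ 3) * f (y + h)) * conj (ψ (y ^ 3) * f y) =
        (ψ (h ^ 3) * c) * (ψ ((3 * h) * y ^ 2) * (AddChar.mulShift ψ (3 * h ^ 2) * χ) y) := by
      intro y
      have e1 : (y + h) ^ 3 = y ^ 3 + ((3 * h) * y ^ 2 + (3 * h ^ 2 * y + h ^ 3)) := by ring
      have e2 : ψ (y ^ 3) * conj (ψ (y ^ 3)) = 1 := by
        rw [Complex.mul_conj, Complex.normSq_eq_norm_sq, norm_char]; simp
      rw [e1, AddChar.map_add_eq_mul, AddChar.map_add_eq_mul, AddChar.map_add_eq_mul,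
        map_mul (starRingEnd ℂ), AddChar.mul_apply, AddChar.mulShift_apply]
      linear_combination (ψ ((3 * h) * y ^ 2) * ψ (3 * h ^ 2 * y) * ψ (h ^ 3)) *
        (ψ (y ^ 3) * conj (ψ (y ^ 3))) * hχ y +
        (ψ ((3 * h) * y ^ 2) * ψ (3 * h ^ 2 * y) * ψ (h ^ 3)) * (c * χ y) * e2
    simp_rw [e]
    rw [← Finset.mul_sum, norm_mul, norm_mul, norm_char, one_mul]
    by_cases hh : h = 0
    · subst hh
      simp only [if_true]
      have h4 : ‖∑ y, ψ ((3 * (0:F)) * y ^ 2) * (AddChar.mulShift ψ (3 * 0 ^ 2) * χ) y‖ ≤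
          Fintype.card F := by
        refine (norm_sum_le _ _).trans ?_
        calc _ ≤ ∑ _y : F, (1 : ℝ) := Finset.sum_le_sum fun y _ => by
              rw [norm_mul, norm_char, norm_char, mul_one]
          _ = Fintype.card F := by simp
      calc _ ≤ 1 * (Fintype.card F : ℝ) := mul_le_mul hc h4 (norm_nonneg _) zero_le_one
        _ ≤ _ := by
          have := Real.sqrt_nonneg (Fintype.card F : ℝ)
          linarith
    · have hg := gauss hψ h2 (mul_ne_zero h3 hh) (AddChar.mulShift ψ (3 * h ^ 2) * χ)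
      have h4 : ‖∑ y, ψ ((3 * h) * y ^ 2) * (AddChar.mulShift ψ (3 * h ^ 2) * χ) y‖ ≤
          √(Fintype.card F) := Real.le_sqrt_of_sq_le hg
      calc _ ≤ 1 * √(Fintype.card F : ℝ) := mul_le_mul hc h4 (norm_nonneg _) zero_le_one
        _ ≤ _ := by simp [hh]
  refine (Finset.sum_le_sum fun h _ => h1 h).trans ?_
  rw [Finset.sum_add_distrib]
  simp

section families

set_option linter.unusedSectionVars false

variable {F F' : Type*} [Field F] [Fintype F] [Field F'] [Fintype F']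

lemma char_mul_conj (ψ : AddChar F ℂ) (x : F) : ψ x * conj (ψ x) = 1 := by
  rw [Complex.mul_conj, Complex.normSq_eq_norm_sq, norm_char]; simp

lemma sum_pair [DecidableEq F] {ψ : AddChar F ℂ} (hψ : ψ.IsPrimitive) (a b : F) :
    ∑ g : F × F, ψ (g.1 * a + g.2 * b) =
      if a = 0 ∧ b = 0 then (Fintype.card F : ℂ) ^ 2 else 0 := by
  rw [Fintype.sum_prod_type]
  have : ∀ x y : F, ψ ((x, y).1 * a + (x, y).2 * b) = ψ (a * x) * ψ (b * y) := by
    intro x y
    rw [AddChar.map_add_eq_mul, mul_comm a, mul_comm b]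
  simp_rw [this]
  rw [← Finset.sum_mul_sum, sum_char_mul hψ, sum_char_mul hψ]
  by_cases ha : a = 0 <;> by_cases hb : b = 0 <;> simp [ha, hb, sq]

/-- The first family of functions on `F × F`. -/
noncomputable def sig (ψ : AddChar F ℂ) (x : F) (g : F × F) : ℂ :=
  ψ (x ^ 3) * ψ (g.1 * x ^ 2 + g.2 * x)

/-- The second family of functions on `F × F`. -/
noncomputable def tau (ψ : AddChar F ℂ) (π s : F' →+ F) (c : F) (y : F') (g : F × F) : ℂ :=
  ψ (g.1 * (π y ^ 2 + c + s y) + g.2 * π y)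

lemma norm_sig (ψ : AddChar F ℂ) (x : F) (g : F × F) : ‖sig ψ x g‖ = 1 := by
  unfold sig; rw [norm_mul, norm_char, norm_char, mul_one]

lemma norm_tau (ψ : AddChar F ℂ) (π s : F' →+ F) (c : F) (y : F') (g : F × F) :
    ‖tau ψ π s c y g‖ = 1 := by
  unfold tau; rw [norm_char]

lemma sig_orth [DecidableEq F] {ψ : AddChar F ℂ} (hψ : ψ.IsPrimitive) (x x' : F) :
    ∑ g, sig ψ x g * conj (sig ψ x' g) = if x = x' then (Fintype.card F : ℂ) ^ 2 else 0 := by
  have : ∀ g : F × F, sig ψ x g * conj (sig ψ x' g) =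
      (ψ (x ^ 3) * conj (ψ (x' ^ 3))) * ψ (g.1 * (x ^ 2 - x' ^ 2) + g.2 * (x - x')) := by
    intro g
    unfold sig
    rw [map_mul (starRingEnd ℂ), conj_char ψ (g.1 * x' ^ 2 + g.2 * x')]
    have : g.1 * (x ^ 2 - x' ^ 2) + g.2 * (x - x') =
      (g.1 * x ^ 2 + g.2 * x) + (-(g.1 * x' ^ 2 + g.2 * x')) := by ring
    rw [this, AddChar.map_add_eq_mul ψ (g.1 * x ^ 2 + g.2 * x)]
    ring
  simp_rw [this]
  rw [← Finset.mul_sum, sum_pair hψ]
  by_cases h : x = x'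
  · subst h
    simp [char_mul_conj]
  · have : ¬ (x ^ 2 - x' ^ 2 = 0 ∧ x - x' = 0) := fun hh => h (sub_eq_zero.1 hh.2)
    simp [h, this]

lemma tau_orth [DecidableEq F] [DecidableEq F'] {ψ : AddChar F ℂ} (hψ : ψ.IsPrimitive)
    {π s : F' →+ F} (hπs : ∀ y y', π y = π y' → s y = s y' → y = y') (c : F) (y y' : F') :
    ∑ g, tau ψ π s c y g * conj (tau ψ π s c y' g) =
      if y = y' then (Fintype.card F : ℂ) ^ 2 else 0 := by
  have : ∀ g : F × F, tau ψ π s c y g * conj (tau ψ π s c y' g) =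
      ψ (g.1 * (π y ^ 2 + s y - (π y' ^ 2 + s y')) + g.2 * (π y - π y')) := by
    intro g
    unfold tau
    rw [conj_char, ← AddChar.map_add_eq_mul]
    congr 1
    ring
  simp_rw [this]
  rw [sum_pair hψ]
  by_cases h : y = y'
  · subst h
    simp
  · have : ¬ (π y ^ 2 + s y - (π y' ^ 2 + s y') = 0 ∧ π y - π y' = 0) := by
      rintro ⟨h1, h2⟩
      have h3 := sub_eq_zero.1 h2
      rw [h3] at h1
      exact h (hπs _ _ h3 (by linear_combination h1))
    simp [h, this]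

lemma sig_tau_orth {ψ : AddChar F ℂ} (hψ : ψ.IsPrimitive)
    {π s : F' →+ F} {c : F} (hc : ∀ y, c + s y ≠ 0) (x : F) (y : F') :
    ∑ g, sig ψ x g * conj (tau ψ π s c y g) = 0 := by
  classical
  have : ∀ g : F × F, sig ψ x g * conj (tau ψ π s c y g) =
      ψ (x ^ 3) * ψ (g.1 * (x ^ 2 - (π y ^ 2 + c + s y)) + g.2 * (x - π y)) := by
    intro g
    unfold tau sig
    rw [conj_char, mul_assoc, ← AddChar.map_add_eq_mul]
    congr 2
    ring
  simp_rw [this]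
  rw [← Finset.mul_sum, sum_pair hψ]
  have : ¬ (x ^ 2 - (π y ^ 2 + c + s y) = 0 ∧ x - π y = 0) := by
    rintro ⟨h1, h2⟩
    have h3 := sub_eq_zero.1 h2
    rw [h3] at h1
    exact hc y (by linear_combination (-1 : F) * h1)
  simp [this]

lemma tau_sig_orth {ψ : AddChar F ℂ} (hψ : ψ.IsPrimitive)
    {π s : F' →+ F} {c : F} (hc : ∀ y, c + s y ≠ 0) (x : F) (y : F') :
    ∑ g, tau ψ π s c y g * conj (sig ψ x g) = 0 := by
  have := congrArg (starRingEnd ℂ) (sig_tau_orth hψ (π := π) hc x y)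
  rw [map_sum, map_zero] at this
  rw [← this]
  refine Finset.sum_congr rfl fun g _ => ?_
  rw [map_mul, Complex.conj_conj, mul_comm]

/-- Quadratic sums. -/
lemma quad_sum {ψ : AddChar F ℂ} (hψ : ψ.IsPrimitive) (h2 : (2 : F) ≠ 0) {a b : F}
    (hab : a ≠ 0 ∨ b ≠ 0) : ‖∑ x, ψ (a * x ^ 2 + b * x)‖ ≤ √(Fintype.card F) := by
  classical
  have e : ∀ x, ψ (a * x ^ 2 + b * x) = ψ (a * x ^ 2) * (AddChar.mulShift ψ b) x := by
    intro x; rw [AddChar.map_add_eq_mul, AddChar.mulShift_apply]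
  simp_rw [e]
  by_cases ha : a = 0
  · have hb : b ≠ 0 := by
      rcases hab with h | h
      · exact absurd ha h
      · exact h
    subst ha
    have : ∑ x, ψ (0 * x ^ 2) * (AddChar.mulShift ψ b) x = 0 := by
      have h := sum_char_mul hψ b
      rw [if_neg hb] at h
      rw [← h]
      refine Finset.sum_congr rfl fun x _ => ?_
      rw [zero_mul, AddChar.map_zero_eq_one, one_mul, AddChar.mulShift_apply]
    rw [this, norm_zero]
    positivity
  · exact Real.le_sqrt_of_sq_le (gauss hψ h2 ha _)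

lemma sig_ker {ψ : AddChar F ℂ} (hψ : ψ.IsPrimitive) (h2 : (2 : F) ≠ 0) {g h : F × F}
    (hgh : g ≠ h) : ‖∑ x, conj (sig ψ x g) * sig ψ x h‖ ≤ √(Fintype.card F) := by
  have e : ∀ x, conj (sig ψ x g) * sig ψ x h =
      ψ ((h.1 - g.1) * x ^ 2 + (h.2 - g.2) * x) := by
    intro x
    unfold sig
    rw [map_mul (starRingEnd ℂ), conj_char ψ (g.1 * x ^ 2 + g.2 * x)]
    have : (h.1 - g.1) * x ^ 2 + (h.2 - g.2) * x =
      (-(g.1 * x ^ 2 + g.2 * x)) + (h.1 * x ^ 2 + h.2 * x) := by ring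
    rw [this, AddChar.map_add_eq_mul ψ (-(g.1 * x ^ 2 + g.2 * x))]
    linear_combination (ψ (-(g.1 * x ^ 2 + g.2 * x)) * ψ (h.1 * x ^ 2 + h.2 * x)) *
      char_mul_conj ψ (x ^ 3)
  simp_rw [e]
  apply quad_sum hψ h2
  by_contra hcon
  push Not at hcon
  exact hgh (Prod.ext (sub_eq_zero.1 hcon.1).symm (sub_eq_zero.1 hcon.2).symm)

lemma tau_ker {S : Type*} [Fintype S] {ψ : AddChar F ℂ} (hψ : ψ.IsPrimitive) (h2 : (2 : F) ≠ 0)
    (π s : F' →+ F) (c : F) (E : F' ≃ F × S) (hE : ∀ y, (E y).1 = π y) (s' : S → F)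
    (hs' : ∀ y, s y = s' (E y).2) {g h : F × F} (hgh : g ≠ h) :
    ‖∑ y, conj (tau ψ π s c y g) * tau ψ π s c y h‖ ≤
      Fintype.card S * √(Fintype.card F) := by
  have e : ∀ y, conj (tau ψ π s c y g) * tau ψ π s c y h =
      (fun z : F × S => ψ ((h.1 - g.1) * (c + s' z.2)) *
        ψ ((h.1 - g.1) * z.1 ^ 2 + (h.2 - g.2) * z.1)) (E y) := by
    intro y
    simp only
    unfold tau
    rw [conj_char, ← AddChar.map_add_eq_mul, ← AddChar.map_add_eq_mul, hE, hs']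
    congr 1
    ring
  rw [Fintype.sum_equiv E _ (fun z : F × S => ψ ((h.1 - g.1) * (c + s' z.2)) *
        ψ ((h.1 - g.1) * z.1 ^ 2 + (h.2 - g.2) * z.1)) e, Fintype.sum_prod_type_right]
  refine (norm_sum_le _ _).trans ?_
  have h1 : ∀ t : S, ‖∑ x, (fun z : F × S => ψ ((h.1 - g.1) * (c + s' z.2)) *
        ψ ((h.1 - g.1) * z.1 ^ 2 + (h.2 - g.2) * z.1)) (x, t)‖ ≤ √(Fintype.card F) := by
    intro t
    simp only
    rw [← Finset.mul_sum, norm_mul, norm_char, one_mul]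
    apply quad_sum hψ h2
    by_contra hcon
    push Not at hcon
    exact hgh (Prod.ext (sub_eq_zero.1 hcon.1).symm (sub_eq_zero.1 hcon.2).symm)
  refine (Finset.sum_le_sum fun t _ => h1 t).trans ?_
  simp

lemma cross {ψ : AddChar F ℂ} {ψ' : AddChar F' ℂ} (hψ' : ψ'.IsPrimitive)
    (h2 : (2 : F') ≠ 0) (h3 : (3 : F') ≠ 0) (π s : F' →+ F) (c : F) (g : F' × F') (h : F × F) :
    ‖∑ y, sig ψ' y g * conj (tau ψ π s c y h)‖ ^ 2 ≤
      Fintype.card F' + Fintype.card F' * √(Fintype.card F') := by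
  have e : ∀ y, sig ψ' y g * conj (tau ψ π s c y h) =
      ψ' (y ^ 3) * (ψ' (g.1 * y ^ 2 + g.2 * y) * conj (tau ψ π s c y h)) := by
    intro y; unfold sig; ring
  simp_rw [e]
  apply cubic hψ' h2 h3
  intro u
  refine ⟨AddChar.mulShift ψ' (2 * g.1 * u) *
    (AddChar.mulShift ψ (-(2 * h.1 * π u))).compAddMonoidHom π,
    ψ' (g.1 * u ^ 2 + g.2 * u) * ψ (-(h.1 * (π u ^ 2 + s u) + h.2 * π u)), ?_, ?_⟩
  · rw [norm_mul, norm_char, norm_char, mul_one]
  · intro y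
    simp only
    unfold tau
    rw [conj_char ψ, conj_char ψ, map_mul (starRingEnd ℂ), conj_char ψ', conj_char ψ,
      neg_neg, AddChar.mul_apply, AddChar.mulShift_apply, AddChar.compAddMonoidHom_apply,
      AddChar.mulShift_apply]
    have e1 : ψ' (g.1 * (y + u) ^ 2 + g.2 * (y + u)) * ψ' (-(g.1 * y ^ 2 + g.2 * y)) =
        ψ' (g.1 * u ^ 2 + g.2 * u) * ψ' (2 * g.1 * u * y) := by
      rw [← AddChar.map_add_eq_mul, ← AddChar.map_add_eq_mul]
      congr 1; ring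
    have e2 : ψ (-(h.1 * (π (y + u) ^ 2 + c + s (y + u)) + h.2 * π (y + u))) *
        ψ (h.1 * (π y ^ 2 + c + s y) + h.2 * π y) =
        ψ (-(h.1 * (π u ^ 2 + s u) + h.2 * π u)) * ψ (-(2 * h.1 * π u) * π y) := by
      rw [← AddChar.map_add_eq_mul, ← AddChar.map_add_eq_mul, map_add π, map_add s]
      congr 1; ring
    linear_combination (ψ (-(h.1 * (π (y + u) ^ 2 + c + s (y + u)) + h.2 * π (y + u))) *
        ψ (h.1 * (π y ^ 2 + c + s y) + h.2 * π y)) * e1 +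
        (ψ' (g.1 * u ^ 2 + g.2 * u) * ψ' (2 * g.1 * u * y)) * e2

end families

section tower

instance fact5 : Fact (Nat.Prime 5) := ⟨by norm_num⟩

/-- The tower of fields. -/
def Fk (k : ℕ) : Type := GaloisField 5 (k + 2)

noncomputable instance (k : ℕ) : Field (Fk k) := inferInstanceAs (Field (GaloisField 5 (k + 2)))

instance (k : ℕ) : Finite (Fk k) := inferInstanceAs (Finite (GaloisField 5 (k + 2)))

noncomputable instance (k : ℕ) : Algebra (ZMod 5) (Fk k) :=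
  inferInstanceAs (Algebra (ZMod 5) (GaloisField 5 (k + 2)))

instance (k : ℕ) : CharP (Fk k) 5 := inferInstanceAs (CharP (GaloisField 5 (k + 2)) 5)

noncomputable instance (k : ℕ) : Fintype (Fk k) := Fintype.ofFinite _

noncomputable instance (k : ℕ) : DecidableEq (Fk k) := Classical.decEq _

lemma card_F (k : ℕ) : Fintype.card (Fk k) = 5 ^ (k + 2) := by
  rw [← Nat.card_eq_fintype_card]
  exact GaloisField.card 5 (k + 2) (by omega)

/-- The order of the field `Fk k`. -/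
noncomputable def q (k : ℕ) : ℝ := 5 ^ (k + 2)

lemma q_pos (k : ℕ) : 0 < q k := by unfold q; positivity

lemma q_eq (k : ℕ) : (Fintype.card (Fk k) : ℝ) = q k := by rw [card_F]; unfold q; norm_num

lemma q_eq' (k : ℕ) : (Fintype.card (Fk k) : ℂ) = (q k : ℂ) := by rw [← q_eq]; norm_num

lemma q_succ (k : ℕ) : q (k + 1) = 5 * q k := by unfold q; ring

lemma two_ne (k : ℕ) : (2 : Fk k) ≠ 0 := by
  have h := (CharP.cast_eq_zero_iff (Fk k) 5 2)
  intro h0
  have : (5 : ℕ) ∣ 2 := h.1 (by exact_mod_cast h0)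
  norm_num at this

lemma three_ne (k : ℕ) : (3 : Fk k) ≠ 0 := by
  have h := (CharP.cast_eq_zero_iff (Fk k) 5 3)
  intro h0
  have : (5 : ℕ) ∣ 3 := h.1 (by exact_mod_cast h0)
  norm_num at this

/-- The additive characters. -/
noncomputable def psi (k : ℕ) : AddChar (Fk k) ℂ :=
  AddChar.FiniteField.primitiveChar_to_Complex (Fk k)

lemma psi_prim (k : ℕ) : (psi k).IsPrimitive :=
  AddChar.FiniteField.primitiveChar_to_Complex_isPrimitive (Fk k)

lemma finrank_Fk (k : ℕ) : Module.finrank (ZMod 5) (Fk k) = k + 2 :=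
  GaloisField.finrank 5 (n := k + 2) (by omega)

lemma exists_E (k : ℕ) : Nonempty (Fk (k + 1) ≃ₗ[ZMod 5] (Fk k × ZMod 5)) := by
  refine ⟨LinearEquiv.ofFinrankEq _ _ ?_⟩
  rw [Module.finrank_prod, finrank_Fk, finrank_Fk, Module.finrank_self]

noncomputable def E (k : ℕ) : Fk (k + 1) ≃ₗ[ZMod 5] (Fk k × ZMod 5) := (exists_E k).some

lemma exists_c (k : ℕ) : ∃ c : Fk k, ∀ t : ZMod 5, c + algebraMap (ZMod 5) (Fk k) t ≠ 0 := by
  by_contra hcon
  push Not at hcon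
  have hs : Function.Surjective (fun t : ZMod 5 => algebraMap (ZMod 5) (Fk k) (-t)) := by
    intro c
    obtain ⟨t, ht⟩ := hcon c
    exact ⟨t, by simp only [map_neg]; linear_combination (-1 : Fk k) * ht⟩
  have h1 := Fintype.card_le_of_surjective _ hs
  rw [card_F, ZMod.card] at h1
  have h2 : 5 ^ 2 ≤ 5 ^ (k + 2) := Nat.pow_le_pow_right (by norm_num) (by omega)
  omega

noncomputable def cc (k : ℕ) : Fk k := (exists_c k).choose

lemma cc_spec (k : ℕ) (t : ZMod 5) : cc k + algebraMap (ZMod 5) (Fk k) t ≠ 0 :=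
  (exists_c k).choose_spec t

noncomputable def pi' (k : ℕ) : Fk (k + 1) →+ Fk k :=
  (AddMonoidHom.fst (Fk k) (ZMod 5)).comp (E k).toLinearMap.toAddMonoidHom

noncomputable def ss (k : ℕ) : Fk (k + 1) →+ Fk k :=
  ((algebraMap (ZMod 5) (Fk k)).toAddMonoidHom.comp (AddMonoidHom.snd (Fk k) (ZMod 5))).comp
    (E k).toLinearMap.toAddMonoidHom

/-- The functions `σ`. -/
noncomputable def sg (k : ℕ) (x : Fk k) (g : Fk k × Fk k) : ℂ := sig (psi k) x g

/-- The functions `τ`. -/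
noncomputable def ta (k : ℕ) (y : Fk (k + 1)) (g : Fk k × Fk k) : ℂ :=
  tau (psi k) (pi' k) (ss k) (cc k) y g

lemma norm_sg (k : ℕ) (x : Fk k) (g : Fk k × Fk k) : ‖sg k x g‖ = 1 := norm_sig _ _ _

lemma norm_ta (k : ℕ) (y : Fk (k + 1)) (g : Fk k × Fk k) : ‖ta k y g‖ = 1 := norm_tau _ _ _ _ _ _

lemma cc_ss (k : ℕ) (y : Fk (k + 1)) : cc k + ss k y ≠ 0 := cc_spec k _

lemma pi_ss (k : ℕ) (y y' : Fk (k + 1)) (h1 : pi' k y = pi' k y') (h2 : ss k y = ss k y') :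
    y = y' := by
  apply (E k).injective
  apply Prod.ext
  · exact h1
  · exact (algebraMap (ZMod 5) (Fk k)).injective h2

lemma sg_orth (k : ℕ) (x x' : Fk k) :
    ∑ g, sg k x g * conj (sg k x' g) = if x = x' then (q k : ℂ) ^ 2 else 0 := by
  have := sig_orth (psi_prim k) x x'
  rw [q_eq'] at this
  exact this

lemma ta_orth (k : ℕ) (y y' : Fk (k + 1)) :
    ∑ g, ta k y g * conj (ta k y' g) = if y = y' then (q k : ℂ) ^ 2 else 0 := by
  have := tau_orth (psi_prim k) (pi_ss k) (cc k) y y'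
  rw [q_eq'] at this
  exact this

lemma sg_ta_orth (k : ℕ) (x : Fk k) (y : Fk (k + 1)) : ∑ g, sg k x g * conj (ta k y g) = 0 :=
  sig_tau_orth (psi_prim k) (cc_ss k) x y

lemma ta_sg_orth (k : ℕ) (x : Fk k) (y : Fk (k + 1)) : ∑ g, ta k y g * conj (sg k x g) = 0 :=
  tau_sig_orth (psi_prim k) (cc_ss k) x y

lemma sg_ker (k : ℕ) {g h : Fk k × Fk k} (hgh : g ≠ h) :
    ‖∑ x, conj (sg k x g) * sg k x h‖ ≤ √(q k) := by
  have := sig_ker (psi_prim k) (two_ne k) hgh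
  rw [q_eq] at this
  exact this

lemma ta_ker (k : ℕ) {g h : Fk k × Fk k} (hgh : g ≠ h) :
    ‖∑ y, conj (ta k y g) * ta k y h‖ ≤ 5 * √(q k) := by
  have := tau_ker (S := ZMod 5) (psi_prim k) (two_ne k) (pi' k) (ss k) (cc k) (E k).toEquiv
    (fun y => rfl) (fun t => algebraMap (ZMod 5) (Fk k) t) (fun y => rfl) hgh
  rw [q_eq, ZMod.card] at this
  exact_mod_cast this

lemma cross' (k : ℕ) (g : Fk (k + 1) × Fk (k + 1)) (h : Fk k × Fk k) :
    ‖∑ y, sg (k + 1) y g * conj (ta k y h)‖ ^ 2 ≤ q (k + 1) + q (k + 1) * √(q (k + 1)) := by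
  have := cross (psi_prim (k + 1)) (two_ne (k + 1)) (three_ne (k + 1)) (pi' k) (ss k) (cc k)
    (ψ := psi k) g h
  rw [q_eq] at this
  exact this

/-- The decay rate. -/
noncomputable def r (k : ℕ) : ℝ := (5 / 7) ^ k

lemma r_pos (k : ℕ) : 0 < r k := by unfold r; positivity

/-- `1 / √√q ≤ r`. -/
lemma sqrt_sqrt (k : ℕ) : 1 ≤ r k * √√(q k) := by
  have h1 : (1 : ℝ) ≤ (r k * √√(q k)) ^ 4 := by
    have e : (r k * √√(q k)) ^ 4 = r k ^ 4 * q k := by
      rw [mul_pow]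
      congr 1
      calc (√√(q k)) ^ 4 = ((√√(q k)) ^ 2) ^ 2 := by ring
        _ = q k := by rw [Real.sq_sqrt (Real.sqrt_nonneg _), Real.sq_sqrt (q_pos k).le]
    rw [e]
    unfold r q
    have : ((5 / 7 : ℝ) ^ k) ^ 4 * 5 ^ (k + 2) = 25 * ((5 / 7) ^ 4 * 5) ^ k := by
      rw [mul_pow, ← pow_mul, ← pow_mul, mul_comm k 4]; ring
    rw [this]
    have h2 : (1 : ℝ) ≤ ((5 / 7) ^ 4 * 5) ^ k := one_le_pow₀ (by norm_num)
    linarith
  by_contra hcon
  push Not at hcon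
  have h3 : 0 ≤ r k * √√(q k) := by have := r_pos k; positivity
  have := pow_lt_one₀ h3 hcon (n := 4) (by norm_num)
  linarith

lemma sqrt_le (k : ℕ) : √(q k) ≤ q k * r k := by
  have h1 := sqrt_sqrt k
  have h2 : (√√(q k)) ^ 2 = √(q k) := Real.sq_sqrt (Real.sqrt_nonneg _)
  have h3 : (√(q k)) ^ 2 = q k := Real.sq_sqrt (q_pos k).le
  have h4 : 1 ≤ √√(q k) := by
    rw [Real.one_le_sqrt, Real.one_le_sqrt]
    unfold q
    exact one_le_pow₀ (by norm_num)
  have hr := r_pos k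
  set u := √√(q k)
  have h5 : q k = u ^ 4 := by rw [← h3, ← h2]; ring
  rw [← h2, h5]
  nlinarith [pow_pos (by linarith : 0 < u) 3, pow_pos (by linarith : 0 < u) 2,
    mul_le_mul_of_nonneg_left h1 (by positivity : 0 ≤ u ^ 3),
    mul_le_mul_of_nonneg_left h4 (by positivity : 0 ≤ u ^ 2)]

lemma cross_le (k : ℕ) (g : Fk (k + 1) × Fk (k + 1)) (h : Fk k × Fk k) :
    ‖∑ y, sg (k + 1) y g * conj (ta k y h)‖ ≤ 2 * (q (k + 1) * r (k + 1)) := by
  have h0 := cross' k g h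
  have h1 := sqrt_sqrt (k + 1)
  have h2 : (√√(q (k + 1))) ^ 2 = √(q (k + 1)) := Real.sq_sqrt (Real.sqrt_nonneg _)
  have h3 : (√(q (k + 1))) ^ 2 = q (k + 1) := Real.sq_sqrt (q_pos (k + 1)).le
  have h4 : 1 ≤ √√(q (k + 1)) := by
    rw [Real.one_le_sqrt, Real.one_le_sqrt]
    unfold q
    exact one_le_pow₀ (by norm_num)
  have hr := r_pos (k + 1)
  set u := √√(q (k + 1)) with hu
  have h5 : q (k + 1) = u ^ 4 := by rw [← h3, ← h2]; ring
  rw [← h2, h5] at h0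
  rw [h5]
  apply le_of_sq_le_sq _ (by positivity)
  have hu0 : 0 < u := by linarith
  calc ‖∑ y, sg (k + 1) y g * conj (ta k y h)‖ ^ 2 ≤ u ^ 4 + u ^ 4 * u ^ 2 := h0
    _ ≤ 4 * (u ^ 6 * (r (k + 1) * u) ^ 2) := by
        have h6 : 1 ≤ (r (k + 1) * u) ^ 2 := one_le_pow₀ h1
        have h7 : u ^ 4 ≤ u ^ 6 := pow_le_pow_right₀ h4 (by norm_num)
        nlinarith [pow_pos hu0 6, mul_le_mul_of_nonneg_left h6 (pow_pos hu0 6).le]
    _ = (2 * (u ^ 4 * r (k + 1))) ^ 2 := by ring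

end tower

end Pool.Agent.helper27.Expsum
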