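import Mathlib

set_option autoImplicit false

open Filter Topology MeasureTheory intervalIntegral

namespace Pool.Agent.helper27.GK

set_option linter.unusedSectionVars false

variable {X Y : Type*} [NormedAddCommGroup X] [NormedSpace ℝ X] [NormedAddCommGroup Y]
  [NormedSpace ℝ Y] [CompleteSpace Y]

/-- Lipschitz maps with constant `K`. -/
def Lip (K : ℝ) (g : X → Y) : Prop := ∀ x y, ‖g x - g y‖ ≤ K * ‖x - y‖

lemma Lip.continuous {K : ℝ} {g : X → Y} (h : Lip K g) : Continuous g := by
  have : LipschitzWith (Real.toNNReal K) g := by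
    apply LipschitzWith.of_dist_le_mul
    intro x y
    rw [dist_eq_norm, dist_eq_norm]
    refine (h x y).trans ?_
    gcongr
    exact Real.le_coe_toNNReal K
  exact this.continuous

lemma Lip.nonneg {K : ℝ} {g : X → Y} (h : Lip K g) {x y : X} (hxy : x ≠ y) : 0 ≤ K := by
  have h1 := h x y
  have h2 : 0 < ‖x - y‖ := norm_pos_iff.2 (sub_ne_zero.2 hxy)
  by_contra hcon
  push Not at hcon
  nlinarith [norm_nonneg (g x - g y)]

/-- Smoothing in the direction `v`. -/
noncomputable def smooth (v : X) (g : X → Y) (y : X) : Y := ∫ s in (0:ℝ)..1, g (y + s • v)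

lemma ii {g : X → Y} (hg : Continuous g) (y v : X) (a b : ℝ) :
    IntervalIntegrable (fun s : ℝ => g (y + s • v)) volume a b := by
  apply Continuous.intervalIntegrable
  fun_prop

lemma smooth_lip {K : ℝ} {g : X → Y} (h : Lip K g) (v : X) : Lip K (smooth v g) := by
  intro x y
  unfold smooth
  rw [← integral_sub (ii h.continuous _ _ _ _) (ii h.continuous _ _ _ _)]
  have : ‖∫ s in (0:ℝ)..1, g (x + s • v) - g (y + s • v)‖ ≤ K * ‖x - y‖ * |1 - 0| := by
    apply intervalIntegral.norm_integral_le_of_norm_le_const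
    intro s _
    refine (h _ _).trans (le_of_eq ?_)
    congr 2; abel
  simpa using this

lemma smooth_close {K : ℝ} (hK : 0 ≤ K) {g : X → Y} (h : Lip K g) (v y : X) :
    ‖smooth v g y - g y‖ ≤ K * ‖v‖ := by
  unfold smooth
  have e : (∫ s in (0:ℝ)..1, g (y + s • v)) - g y =
      ∫ s in (0:ℝ)..1, (g (y + s • v) - g y) := by
    rw [integral_sub (ii h.continuous _ _ _ _) (by simp), intervalIntegral.integral_const,
      sub_zero, one_smul]
  rw [e]
  have : ‖∫ s in (0:ℝ)..1, g (y + s • v) - g y‖ ≤ K * ‖v‖ * |1 - 0| := by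
    apply intervalIntegral.norm_integral_le_of_norm_le_const
    intro s hs
    rw [Set.uIoc_of_le zero_le_one] at hs
    refine (h _ _).trans ?_
    rw [add_sub_cancel_left, norm_smul, Real.norm_of_nonneg hs.1.le]
    have := mul_le_mul_of_nonneg_right hs.2 (norm_nonneg v)
    rw [one_mul] at this
    gcongr
  simpa using this

/-- `D` is the directional derivative of `g` in the direction `w`, with a uniform second order
error term. -/
def Dir (g : X → Y) (w : X) (D : X → Y) (K : ℝ) : Prop :=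
  ∀ (y : X) (t : ℝ), ‖g (y + t • w) - g y - t • D y‖ ≤ K * t ^ 2

lemma dir_zero (g : X → Y) : Dir g 0 0 0 := by
  intro y t; simp

lemma dir_smul {g : X → Y} {w : X} {D : X → Y} {K : ℝ} (h : Dir g w D K) (a : ℝ) :
    Dir g (a • w) (a • D) (K * a ^ 2) := by
  intro y t
  have := h y (t * a)
  simp only [Pi.smul_apply, smul_smul]
  refine this.trans (le_of_eq ?_)
  ring

lemma dir_add {g : X → Y} {v w : X} {Dv Dw : X → Y} {Kv Kw C : ℝ} (hv : Dir g v Dv Kv)
    (hw : Dir g w Dw Kw) (hC : Lip C Dw) : Dir g (v + w) (Dv + Dw) (Kv + Kw + C * ‖v‖) := by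
  intro y t
  have h1 := hv y t
  have h2 := hw (y + t • v) t
  have h3 := hC (y + t • v) y
  rw [add_sub_cancel_left, norm_smul] at h3
  have e : g (y + t • (v + w)) - g y - t • (Dv + Dw) y =
      (g (y + t • v + t • w) - g (y + t • v) - t • Dw (y + t • v)) +
      (g (y + t • v) - g y - t • Dv y) + t • (Dw (y + t • v) - Dw y) := by
    rw [smul_add, ← add_assoc, Pi.add_apply, smul_add, smul_sub]
    abel
  rw [e]
  have h4 : ‖t • (Dw (y + t • v) - Dw y)‖ ≤ C * ‖v‖ * t ^ 2 := by
    rw [norm_smul]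
    calc ‖t‖ * ‖Dw (y + t • v) - Dw y‖ ≤ ‖t‖ * (C * (‖t‖ * ‖v‖)) := by gcongr
      _ = C * ‖v‖ * ‖t‖ ^ 2 := by ring
      _ = C * ‖v‖ * t ^ 2 := by rw [Real.norm_eq_abs, sq_abs]
  calc _ ≤ ‖(g (y + t • v + t • w) - g (y + t • v) - t • Dw (y + t • v)) +
      (g (y + t • v) - g y - t • Dv y)‖ + ‖t • (Dw (y + t • v) - Dw y)‖ := norm_add_le _ _
    _ ≤ ‖g (y + t • v + t • w) - g (y + t • v) - t • Dw (y + t • v)‖ +
      ‖g (y + t • v) - g y - t • Dv y‖ + ‖t • (Dw (y + t • v) - Dw y)‖ := by
        gcongr; exact norm_add_le _ _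
    _ ≤ (Kv + Kw + C * ‖v‖) * t ^ 2 := by linarith

lemma dir_smooth {g : X → Y} (hg : Continuous g) {w : X} {D : X → Y} (hD : Continuous D) {K : ℝ}
    (h : Dir g w D K) (v : X) : Dir (smooth v g) w (smooth v D) K := by
  intro y t
  unfold smooth
  rw [← intervalIntegral.integral_smul, ← integral_sub (ii hg _ _ _ _) (ii hg _ _ _ _),
    ← integral_sub ((ii hg _ _ _ _).sub (ii hg _ _ _ _))
      (by apply Continuous.intervalIntegrable; fun_prop)]
  have : ‖∫ s in (0:ℝ)..1, g (y + t • w + s • v) - g (y + s • v) - t • D (y + s • v)‖ ≤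
      K * t ^ 2 * |1 - 0| := by
    apply intervalIntegral.norm_integral_le_of_norm_le_const
    intro s _
    have := h (y + s • v) t
    have e : y + t • w + s • v = y + s • v + t • w := by abel
    rw [e]
    exact this
  simpa using this

lemma dir_self {K : ℝ} (hK : 0 ≤ K) {g : X → Y} (h : Lip K g) (v : X) :
    Dir (smooth v g) v (fun y => g (y + v) - g y) (2 * K * ‖v‖) := by
  intro y t
  have hc := h.continuous
  have hi : ∀ a b : ℝ, IntervalIntegrable (fun s : ℝ => g (y + s • v)) volume a b :=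
    fun a b => ii hc y v a b
  have e1 : smooth v g (y + t • v) = ∫ s in t..(1 + t), g (y + s • v) := by
    unfold smooth
    have := intervalIntegral.integral_comp_add_right (a := 0) (b := 1)
      (fun s : ℝ => g (y + s • v)) t
    rw [zero_add] at this
    rw [← this]
    refine intervalIntegral.integral_congr fun s _ => ?_
    congr 1
    rw [add_smul]; abel
  have e2 : ∫ s in (1:ℝ)..(1 + t), g (y + s • v) = ∫ s in (0:ℝ)..t, g (y + v + s • v) := by
    have := intervalIntegral.integral_comp_add_right (a := 0) (b := t)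
      (fun s : ℝ => g (y + s • v)) 1
    rw [zero_add, add_comm t 1] at this
    rw [← this]
    refine intervalIntegral.integral_congr fun s _ => ?_
    congr 1
    rw [add_smul, one_smul]; abel
  have e3 : (∫ s in t..(1 + t), g (y + s • v)) - ∫ s in (0:ℝ)..1, g (y + s • v) =
      (∫ s in (1:ℝ)..(1 + t), g (y + s • v)) - ∫ s in (0:ℝ)..t, g (y + s • v) := by
    rw [← integral_add_adjacent_intervals (hi t 1) (hi 1 (1 + t)),
      ← integral_add_adjacent_intervals (hi 0 t) (hi t 1)]
    abel
  have e4 : t • (g (y + v) - g y) = ∫ _s in (0:ℝ)..t, (g (y + v) - g y) := by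
    rw [intervalIntegral.integral_const, sub_zero]
  have e5 : smooth v g (y + t • v) - smooth v g y - t • (g (y + v) - g y) =
      ∫ s in (0:ℝ)..t, ((g (y + v + s • v) - g (y + s • v)) - (g (y + v) - g y)) := by
    rw [e1]
    unfold smooth
    rw [e3, e2, e4, ← integral_sub (ii hc _ _ _ _) (hi _ _),
      ← integral_sub ((ii hc _ _ _ _).sub (hi _ _)) (by simp)]
  simp only
  rw [e5]
  have : ‖∫ s in (0:ℝ)..t, ((g (y + v + s • v) - g (y + s • v)) - (g (y + v) - g y))‖ ≤
      (2 * K * ‖v‖ * |t|) * |t - 0| := by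
    apply intervalIntegral.norm_integral_le_of_norm_le_const
    intro s hs
    have hst : |s| ≤ |t| := by
      rcases le_total 0 t with ht | ht
      · rw [Set.uIoc_of_le ht] at hs
        rw [abs_of_nonneg hs.1.le, abs_of_nonneg ht]; exact hs.2
      · rw [Set.uIoc_of_ge ht] at hs
        rw [abs_of_nonpos hs.2, abs_of_nonpos ht]; linarith [hs.1]
    have e6 : (g (y + v + s • v) - g (y + s • v)) - (g (y + v) - g y) =
        (g (y + v + s • v) - g (y + v)) - (g (y + s • v) - g y) := by abel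
    rw [e6]
    have h1 := h (y + v + s • v) (y + v)
    have h2 := h (y + s • v) y
    rw [add_sub_cancel_left, norm_smul, Real.norm_eq_abs] at h1 h2
    have h3 : K * (|s| * ‖v‖) ≤ K * (|t| * ‖v‖) := by gcongr
    calc _ ≤ ‖g (y + v + s • v) - g (y + v)‖ + ‖g (y + s • v) - g y‖ := norm_sub_le _ _
      _ ≤ 2 * K * ‖v‖ * |t| := by nlinarith
  refine this.trans (le_of_eq ?_)
  rw [sub_zero, mul_assoc, ← sq, sq_abs]

lemma le_of_forall_small {a b c : ℝ} (h : ∀ t : ℝ, 0 < t → a ≤ b + c * t) : a ≤ b := by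
  by_contra hcon
  push Not at hcon
  have h1 : 0 < |c| + 1 := by positivity
  have h2 := h ((a - b) / (2 * (|c| + 1))) (by have : 0 < a - b := by linarith
                                               positivity)
  have h3 : c * ((a - b) / (2 * (|c| + 1))) ≤ (|c| + 1) * ((a - b) / (2 * (|c| + 1))) := by
    apply mul_le_mul_of_nonneg_right
    · linarith [le_abs_self c]
    · have : 0 < a - b := by linarith
      positivity
  have h4 : (|c| + 1) * ((a - b) / (2 * (|c| + 1))) = (a - b) / 2 := by field_simp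
  linarith

lemma dir_norm {g : X → Y} {w : X} {D : X → Y} {K : ℝ} (h : Dir g w D K) (hg : Lip 1 g) (y : X) :
    ‖D y‖ ≤ ‖w‖ := by
  apply le_of_forall_small (c := K)
  intro t ht
  have h1 := h y t
  have h2 := hg (y + t • w) y
  rw [add_sub_cancel_left, one_mul, norm_smul, Real.norm_of_nonneg ht.le] at h2
  have h3 : ‖t • D y‖ ≤ ‖g (y + t • w) - g y‖ + ‖g (y + t • w) - g y - t • D y‖ := by
    have : t • D y = (g (y + t • w) - g y) - (g (y + t • w) - g y - t • D y) := by abel
    nth_rewrite 1 [this]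
    exact norm_sub_le _ _
  rw [norm_smul, Real.norm_of_nonneg ht.le] at h3
  have h4 : t * ‖D y‖ ≤ t * (‖w‖ + K * t) := by nlinarith
  exact le_of_mul_le_mul_left h4 ht

lemma dir_functional {g : X → Y} {w : X} {D : X → Y} {K : ℝ} (h : Dir g w D K)
    (F : Y →L[ℝ] ℝ) (f : X →L[ℝ] ℝ) (c : ℝ) (hF : ∀ x, F (g x) = f x + c) (y : X) :
    F (D y) = f w := by
  have key : |F (D y) - f w| ≤ 0 := by
    apply le_of_forall_small (c := ‖F‖ * K)
    intro t ht
    have h1 := h y t
    have h2 := F.le_opNorm (g (y + t • w) - g y - t • D y)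
    rw [map_sub, map_sub, hF, hF, map_add, map_smul, map_smul] at h2
    have h3 : f y + t • f w + c - (f y + c) - t • F (D y) = t * (f w - F (D y)) := by
      simp only [smul_eq_mul]; ring
    rw [h3, Real.norm_eq_abs, abs_mul, abs_of_pos ht] at h2
    have h4 : t * |f w - F (D y)| ≤ t * (‖F‖ * K * t) := by
      refine h2.trans ?_
      calc ‖F‖ * ‖g (y + t • w) - g y - t • D y‖ ≤ ‖F‖ * (K * t ^ 2) := by gcongr
        _ = _ := by ring
    have h5 := le_of_mul_le_mul_left h4 ht
    rw [abs_sub_comm] at h5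
    linarith
  have := abs_nonpos_iff.1 key
  linarith

/-- The iterated smoothings. -/
noncomputable def G (δ : X → Y) (v : ℕ → X) : ℕ → X → Y
  | 0 => δ
  | (m + 1) => smooth (v m) (G δ v m)

/-- The derivatives: `H δ v n j` is the derivative of `G δ v (n + 1 + j)` along `v n`. -/
noncomputable def H (δ : X → Y) (v : ℕ → X) (n : ℕ) : ℕ → X → Y
  | 0 => fun y => G δ v n (y + v n) - G δ v n y
  | (j + 1) => smooth (v (n + 1 + j)) (H δ v n j)

lemma G_lip {δ : X → Y} (hδ : Lip 1 δ) (v : ℕ → X) (m : ℕ) : Lip 1 (G δ v m) := by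
  induction m with
  | zero => exact hδ
  | succ m ih => exact smooth_lip ih _

lemma H_lip {δ : X → Y} (hδ : Lip 1 δ) (v : ℕ → X) (n j : ℕ) : Lip 2 (H δ v n j) := by
  induction j with
  | zero =>
      intro x y
      have h1 := G_lip hδ v n (x + v n) (y + v n)
      have h2 := G_lip hδ v n x y
      rw [add_sub_add_right_eq_sub] at h1
      have e : H δ v n 0 x - H δ v n 0 y =
          (G δ v n (x + v n) - G δ v n (y + v n)) - (G δ v n x - G δ v n y) := by
        unfold H; abel
      rw [e]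
      refine (norm_sub_le _ _).trans ?_
      linarith
  | succ j ih => exact smooth_lip ih _

lemma H_dir {δ : X → Y} (hδ : Lip 1 δ) (v : ℕ → X) (n j : ℕ) :
    Dir (G δ v (n + 1 + j)) (v n) (H δ v n j) (2 * 1 * ‖v n‖) := by
  induction j with
  | zero => exact dir_self zero_le_one (G_lip hδ v n) (v n)
  | succ j ih =>
      exact dir_smooth (G_lip hδ v _).continuous (H_lip hδ v n j).continuous ih _

lemma H_step {δ : X → Y} (hδ : Lip 1 δ) (v : ℕ → X) (n j : ℕ) (y : X) :
    ‖H δ v n (j + 1) y - H δ v n j y‖ ≤ 2 * ‖v (n + 1 + j)‖ :=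
  smooth_close (by norm_num) (H_lip hδ v n j) _ _

lemma G_functional {δ : X → Y} (hδ : Lip 1 δ) (v : ℕ → X) (F : Y →L[ℝ] ℝ)
    (f : X →L[ℝ] ℝ) (c : ℝ) (hF : ∀ x, F (δ x) = f x + c) (m : ℕ) :
    ∃ c' : ℝ, ∀ x, F (G δ v m x) = f x + c' := by
  induction m with
  | zero => exact ⟨c, hF⟩
  | succ m ih =>
      obtain ⟨c', hc'⟩ := ih
      refine ⟨c' + f (v m) / 2, fun x => ?_⟩
      change F (smooth (v m) (G δ v m) x) = _
      unfold smooth
      rw [← ContinuousLinearMap.intervalIntegral_comp_comm F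
        (ii (G_lip hδ v m).continuous _ _ _ _)]
      simp_rw [hc', map_add, map_smul, smul_eq_mul]
      have e : (fun s : ℝ => f x + s * f (v m) + c') =
          fun s : ℝ => s * f (v m) + (f x + c') := by funext s; ring
      rw [e, intervalIntegral.integral_add (by apply Continuous.intervalIntegrable; fun_prop)
        (by simp), intervalIntegral.integral_mul_const, integral_id]
      simp
      ring

/-- The derivative of `G m` along a combination of `v n`, `n < m`. -/
lemma dir_comb {δ : X → Y} (hδ : Lip 1 δ) (v : ℕ → X) (a : ℕ → ℝ) (m : ℕ) (s : Finset ℕ)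
    (hs : ∀ n ∈ s, n < m) :
    ∃ K, Dir (G δ v m) (∑ n ∈ s, a n • v n) (∑ n ∈ s, a n • H δ v n (m - 1 - n)) K := by
  classical
  induction s using Finset.induction_on with
  | empty => exact ⟨0, by simpa using dir_zero _⟩
  | insert n s hn ih =>
      obtain ⟨K, hK⟩ := ih (fun k hk => hs k (Finset.mem_insert_of_mem hk))
      have hnm : n < m := hs n (Finset.mem_insert_self _ _)
      have h1 := H_dir hδ v n (m - 1 - n)
      have e : n + 1 + (m - 1 - n) = m := by omega
      rw [e] at h1
      have h2 := dir_smul h1 (a n)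
      rw [Finset.sum_insert hn, Finset.sum_insert hn, add_comm, add_comm (a n • H δ v n _)]
      refine ⟨_, dir_add hK h2 (C := |a n| * 2) ?_⟩
      intro x y
      rw [Pi.smul_apply, Pi.smul_apply, ← smul_sub, norm_smul, Real.norm_eq_abs, mul_assoc]
      gcongr
      exact H_lip hδ v n _ x y

/-- **Lifting lemma** (after Godefroy and Kalton), first for a summable sequence. -/
theorem lifting_summable (δ : X → Y) (hδ : ∀ x y, ‖δ x - δ y‖ ≤ ‖x - y‖)
    (v : ℕ → X) (hv : Summable fun n => ‖v n‖) :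
    ∃ ρ : ℕ → Y, (∀ a : ℕ →₀ ℝ, ‖Finsupp.linearCombination ℝ ρ a‖ ≤
      ‖Finsupp.linearCombination ℝ v a‖) ∧
      ∀ (F : Y →L[ℝ] ℝ) (f : X →L[ℝ] ℝ) (c : ℝ), (∀ z, F (δ z) = f z + c) →
        ∀ n, F (ρ n) = f (v n) := by
  have hδ' : Lip 1 δ := fun x y => by rw [one_mul]; exact hδ x y
  have hlim : ∀ n, ∃ r : Y, Tendsto (fun j => H δ v n j 0) atTop (𝓝 r) := by
    intro n
    apply cauchySeq_tendsto_of_complete
    apply cauchySeq_of_summable_dist
    have h1 : Summable (fun j => 2 * ‖v (n + 1 + j)‖) := by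
      have := ((summable_nat_add_iff (n + 1)).2 hv).mul_left 2
      simpa [add_comm, add_left_comm, add_assoc] using this
    refine Summable.of_nonneg_of_le (fun j => dist_nonneg) (fun j => ?_) h1
    rw [dist_comm, dist_eq_norm]
    exact H_step hδ' v n j 0
  choose ρ hρ using hlim
  have hρ' : ∀ n, Tendsto (fun m => H δ v n (m - 1 - n) 0) atTop (𝓝 (ρ n)) := by
    intro n
    refine (hρ n).comp ?_
    have h1 := tendsto_sub_atTop_nat (1 + n)
    refine h1.congr (fun m => ?_)
    omega
  refine ⟨ρ, fun a => ?_, fun F f c hF n => ?_⟩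
  · have h1 : Tendsto (fun m => ‖(∑ n ∈ a.support, a n • H δ v n (m - 1 - n)) 0‖) atTop
        (𝓝 ‖Finsupp.linearCombination ℝ ρ a‖) := by
      refine Tendsto.norm ?_
      rw [Finsupp.linearCombination_apply, Finsupp.sum]
      simp_rw [Finset.sum_apply, Pi.smul_apply]
      exact tendsto_finsetSum _ (fun n _ => (hρ' n).const_smul _)
    refine le_of_tendsto h1 ?_
    filter_upwards [eventually_gt_atTop (a.support.sup id)] with m hm
    obtain ⟨K, hK⟩ := dir_comb hδ' v a m a.support (fun n hn =>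
      lt_of_le_of_lt (Finset.le_sup (f := id) hn) hm)
    have := dir_norm hK (G_lip hδ' v m) 0
    rw [Finsupp.linearCombination_apply, Finsupp.sum]
    exact this
  · have h1 : ∀ j, F (H δ v n j 0) = f (v n) := by
      intro j
      obtain ⟨c', hc'⟩ := G_functional hδ' v F f c hF (n + 1 + j)
      exact dir_functional (H_dir hδ' v n j) F f c' hc' 0
    have h2 : Tendsto (fun j => F (H δ v n j 0)) atTop (𝓝 (F (ρ n))) :=
      (F.continuous.tendsto _).comp (hρ n)
    simp_rw [h1] at h2
    exact (tendsto_nhds_unique h2 tendsto_const_nhds)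

/-- **Lifting lemma** (after Godefroy and Kalton). -/
theorem lifting (δ : X → Y) (hδ : ∀ x y, ‖δ x - δ y‖ ≤ ‖x - y‖) (x : ℕ → X) :
    ∃ ρ : ℕ → Y, (∀ a : ℕ →₀ ℝ, ‖Finsupp.linearCombination ℝ ρ a‖ ≤
      ‖Finsupp.linearCombination ℝ x a‖) ∧
      ∀ (F : Y →L[ℝ] ℝ) (f : X →L[ℝ] ℝ) (c : ℝ), (∀ z, F (δ z) = f z + c) →
        ∀ n, F (ρ n) = f (x n) := by
  set c : ℕ → ℝ := fun n => (1 / 2) ^ n / (1 + ‖x n‖) with hc
  have hc0 : ∀ n, 0 < c n := fun n => by rw [hc]; positivity
  have hv : Summable fun n => ‖c n • x n‖ := by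
    refine Summable.of_nonneg_of_le (fun n => norm_nonneg _) (fun n => ?_)
      (summable_geometric_of_lt_one (by norm_num : (0:ℝ) ≤ 1 / 2) (by norm_num))
    rw [norm_smul, Real.norm_of_nonneg (hc0 n).le, hc]
    have h1 : 0 < 1 + ‖x n‖ := by positivity
    rw [div_mul_eq_mul_div, div_le_iff₀ h1]
    have : (0:ℝ) < (1 / 2) ^ n := by positivity
    nlinarith [norm_nonneg (x n)]
  obtain ⟨ρ, h1, h2⟩ := lifting_summable δ hδ (fun n => c n • x n) hv
  refine ⟨fun n => (c n)⁻¹ • ρ n, fun a => ?_, fun F f d hF n => ?_⟩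
  · set b : ℕ →₀ ℝ := a.mapRange (fun t => t) rfl with hb
    -- coefficients `a n / c n`
    let a' : ℕ →₀ ℝ := Finsupp.onFinset a.support (fun n => a n * (c n)⁻¹) (fun n hn => by
      rw [Finsupp.mem_support_iff]
      exact left_ne_zero_of_mul hn)
    have e1 : Finsupp.linearCombination ℝ (fun n => (c n)⁻¹ • ρ n) a =
        Finsupp.linearCombination ℝ ρ a' := by
      rw [Finsupp.linearCombination_apply, Finsupp.linearCombination_apply,
        Finsupp.sum_of_support_subset a' Finsupp.support_onFinset_subset _ (by simp), Finsupp.sum]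
      refine Finset.sum_congr rfl fun n _ => ?_
      rw [smul_smul]; rfl
    have e2 : Finsupp.linearCombination ℝ (fun n => c n • x n) a' =
        Finsupp.linearCombination ℝ x a := by
      rw [Finsupp.linearCombination_apply, Finsupp.linearCombination_apply,
        Finsupp.sum_of_support_subset a' Finsupp.support_onFinset_subset _ (by simp), Finsupp.sum]
      refine Finset.sum_congr rfl fun n _ => ?_
      change (a n * (c n)⁻¹) • (c n • x n) = _
      rw [smul_smul, inv_mul_cancel_right₀ (hc0 n).ne']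
    rw [e1, ← e2]
    exact h1 a'
  · rw [map_smul, h2 F f d hF n, map_smul, smul_smul, inv_mul_cancel₀ (hc0 n).ne', one_smul]

end Pool.Agent.helper27.GK
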